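import Mathlib

/-!
# Growth of graded families of finite sets of vectors
-/

set_option autoImplicit false

namespace Pool.Agent.H66.VG

open Finset Pointwise

theorem prod_digits (M t d Y : ℕ) (h : t + 1 ≤ M) :
    ∏ s : Fin M, (if s.val = 0 then d else if s.val ≤ t then Y else 1) = d * Y ^ t := by
  obtain ⟨M', rfl⟩ : ∃ M', M = M' + 1 := ⟨M - 1, by omega⟩
  rw [Fin.prod_univ_succ]
  have e1 : (if ((0 : Fin (M' + 1)) : ℕ) = 0 then d else
      if ((0 : Fin (M' + 1)) : ℕ) ≤ t then Y else 1) = d := if_pos rfl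
  rw [e1]
  congr 1
  have e2 : ∀ s : Fin M', (if (s.succ : Fin (M' + 1)).val = 0 then d else
      if (s.succ : Fin (M' + 1)).val ≤ t then Y else 1) = if s.val < t then Y else 1 := by
    intro s
    rw [if_neg (by simp), Fin.val_succ]
    by_cases hs : s.val < t
    · rw [if_pos hs, if_pos (by omega)]
    · rw [if_neg hs, if_neg (by omega)]
  rw [Finset.prod_congr rfl fun s _ => e2 s, Finset.prod_ite]
  simp only [prod_const, one_pow, mul_one]
  congr 1
  rw [Fin.card_filter_val_lt]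
  omega

section
variable {r : ℕ} {K : Type*} [Field K] [CharZero K] (m : Fin r → ℕ) (V : Fin r → Fin r → K)
  (S : ℕ → ℕ → Finset (Fin r → K))

/-- `x` times the vector `V j`, up to higher terms, is a difference of elements of `S X B`. -/
def Diff (j : Fin r) (X B x : ℕ) : Prop :=
  ∃ a ∈ S X B, ∃ b ∈ S X B, (∀ i, m i < m j → a i - b i = 0) ∧
    (∀ i, m i = m j → a i - b i = (x : K) * V j i)

variable {m V S}

omit [CharZero K] in
theorem Diff.add (hadd : ∀ X Y B B' a b, a ∈ S X B → b ∈ S Y B' → a + b ∈ S (X + Y) (B + B'))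
    {j : Fin r} {X Y B B' x y : ℕ} (h : Diff m V S j X B x) (h' : Diff m V S j Y B' y) :
    Diff m V S j (X + Y) (B + B') (x + y) := by
  obtain ⟨a, ha, b, hb, h1, h2⟩ := h
  obtain ⟨a', ha', b', hb', h1', h2'⟩ := h'
  refine ⟨a + a', hadd _ _ _ _ _ _ ha ha', b + b', hadd _ _ _ _ _ _ hb hb', fun i hi => ?_,
    fun i hi => ?_⟩
  · have e1 := h1 i hi
    have e2 := h1' i hi
    show a i + a' i - (b i + b' i) = 0
    linear_combination e1 + e2
  · have e1 := h2 i hi
    have e2 := h2' i hi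
    show a i + a' i - (b i + b' i) = _
    push_cast
    linear_combination e1 + e2

omit [CharZero K] in
theorem diff_digits
    (hadd : ∀ X Y B B' a b, a ∈ S X B → b ∈ S Y B' → a + b ∈ S (X + Y) (B + B'))
    {C : ℕ} {j : Fin r} (hj : 1 ≤ m j) {Y : ℕ} (hY : 1 ≤ Y)
    (hF : ∀ q : Fin (m j) → ℕ, (∀ t, q t ≤ Y) → Diff m V S j (C * Y) C (∏ t, q t)) (t : ℕ)
    (ht : t ≤ m j) : ∀ x < Y ^ t, Diff m V S j ((t + 1) * (C * Y)) ((t + 1) * C) x := by
  induction t with
  | zero =>
    intro x hx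
    obtain rfl : x = 0 := by simpa using hx
    have h := hF (fun _ => 0) (fun _ => Nat.zero_le _)
    have e : ∏ _t : Fin (m j), 0 = 0 := by
      obtain ⟨M, hM⟩ : ∃ M, m j = M + 1 := ⟨m j - 1, by omega⟩
      rw [hM, Fin.prod_univ_succ, zero_mul]
    rw [e] at h
    simpa using h
  | succ t ih =>
    intro x hx
    have hYt : 0 < Y ^ t := pow_pos (by omega) _
    have h1 := ih (by omega) (x % Y ^ t) (Nat.mod_lt _ hYt)
    have hd : x / Y ^ t < Y := by
      rw [Nat.div_lt_iff_lt_mul hYt, mul_comm, ← pow_succ]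
      exact hx
    have h2 := hF (fun s => if s.val = 0 then x / Y ^ t else if s.val ≤ t then Y else 1) (fun s => by
      split_ifs
      · exact hd.le
      · exact le_rfl
      · exact hY)
    rw [prod_digits _ _ _ _ ht] at h2
    have h3 := h1.add hadd h2
    have e1 : (t + 1) * (C * Y) + C * Y = (t + 1 + 1) * (C * Y) := by ring
    have e3 : (t + 1) * C + C = (t + 1 + 1) * C := by ring
    have e2 : x % Y ^ t + x / Y ^ t * Y ^ t = x := by
      rw [mul_comm]; exact Nat.mod_add_div _ _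
    rw [e1, e2, e3] at h3
    exact h3

/-- Independence of the block of weight `k`. -/
def Indep (m : Fin r → ℕ) (V : Fin r → Fin r → K) : Prop :=
  ∀ (k : ℕ) (c : Fin r → K), (∀ j, m j ≠ k → c j = 0) →
    (∀ i, m i = k → ∑ j, c j * V j i = 0) → c = 0

theorem inj_of (hV : Indep m V) (a b : (j : Fin r) → ℕ → Fin r → K) (Y : ℕ)
    (h1 : ∀ j x, x < Y ^ m j → ∀ i, m i < m j → a j x i - b j x i = 0)
    (h2 : ∀ j x, x < Y ^ m j → ∀ i, m i = m j → a j x i - b j x i = (x : K) * V j i)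
    (x x' : (j : Fin r) → ℕ) (hx : ∀ j, x j < Y ^ m j) (hx' : ∀ j, x' j < Y ^ m j)
    (e : ∑ j, (a j (x j) - b j (x j)) = ∑ j, (a j (x' j) - b j (x' j))) : x = x' := by
  have key : ∀ k : ℕ, ∀ j, m j = k → x j = x' j := by
    intro k
    induction k using Nat.strong_induction_on with
    | _ k ih =>
      have h := hV k (fun j => if m j = k then (x j : K) - (x' j : K) else 0)
        (fun j hj => if_neg hj) (fun i hi => by
          have e1 := congrFun e i
          rw [Finset.sum_apply, Finset.sum_apply, ← sub_eq_zero, ← Finset.sum_sub_distrib] at e1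
          refine (Finset.sum_congr rfl fun j _ => ?_).trans e1
          simp only [Pi.sub_apply]
          rcases lt_trichotomy (m j) k with hjk | hjk | hjk
          · rw [if_neg (by omega), ih (m j) hjk j rfl]
            ring
          · rw [if_pos hjk, h2 j _ (hx j) i (by omega), h2 j _ (hx' j) i (by omega)]
            ring
          · rw [if_neg (by omega), h1 j _ (hx j) i (by omega), h1 j _ (hx' j) i (by omega)]
            ring)
      intro j hj
      have h3 := congrFun h j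
      simp only [if_pos hj, Pi.zero_apply] at h3
      exact_mod_cast sub_eq_zero.1 h3
  funext j
  exact key _ j rfl

/-- The box of differences. -/
theorem box (hm : ∀ i, 1 ≤ m i) (hV : Indep m V)
    (hadd : ∀ X Y B B' a b, a ∈ S X B → b ∈ S Y B' → a + b ∈ S (X + Y) (B + B'))
    (hmono : ∀ X Y B B', X ≤ Y → B ≤ B' → S X B ⊆ S Y B') (hne : (S 2 2).Nonempty) (C : ℕ)
    (hF : ∀ (j : Fin r) (Y : ℕ), 1 ≤ Y → ∀ q : Fin (m j) → ℕ, (∀ t, q t ≤ Y) →
      Diff m V S j (C * Y) C (∏ t, q t)) :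
    ∃ L : ℕ, 2 ≤ L ∧ (S L L).Nonempty ∧ ∀ Y, 1 ≤ Y → ∀ A A' : Finset (Fin r → K),
      S (L * Y) L ⊆ A → (∀ a ∈ A, ∀ b ∈ A, a + b ∈ A') →
      Y ^ (∑ i, m i) * A.card ≤ A'.card ^ 2 := by
  classical
  obtain ⟨z, hz⟩ := hne
  set D := ∑ i, m i with hD
  set L := 2 + ∑ j, (m j + 1) * C with hL
  have hL2 : 2 ≤ L := by omega
  refine ⟨L, hL2, ⟨z, hmono _ _ _ _ hL2 hL2 hz⟩, ?_⟩
  have box : ∀ Y, 1 ≤ Y → Y ^ D ≤ (S (L * Y) L - S (L * Y) L).card := by
    intro Y hY
    have hd : ∀ (j : Fin r) (x : ℕ), ∃ a b : Fin r → K, x < Y ^ m j →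
        a ∈ S ((m j + 1) * (C * Y)) ((m j + 1) * C) ∧
        b ∈ S ((m j + 1) * (C * Y)) ((m j + 1) * C) ∧
        (∀ i, m i < m j → a i - b i = 0) ∧ (∀ i, m i = m j → a i - b i = (x : K) * V j i) := by
      intro j x
      by_cases hx : x < Y ^ m j
      · obtain ⟨a, ha, b, hb, h1, h2⟩ := diff_digits hadd (hm j) hY (hF j Y hY) (m j) le_rfl x hx
        exact ⟨a, b, fun _ => ⟨ha, hb, h1, h2⟩⟩
      · exact ⟨0, 0, fun h => absurd h hx⟩
    choose a b hab using hd
    have hsum : ∀ (f : Fin r → Fin r → K),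
        (∀ j, f j ∈ S ((m j + 1) * (C * Y)) ((m j + 1) * C)) →
        z + ∑ j, f j ∈ S (L * Y) L := by
      intro f hf
      have h1 : ∀ s : Finset (Fin r), z + ∑ j ∈ s, f j ∈
          S (2 + ∑ j ∈ s, (m j + 1) * (C * Y)) (2 + ∑ j ∈ s, (m j + 1) * C) := by
        intro s
        induction s using Finset.induction_on with
        | empty => simpa using hz
        | insert j s hj ih =>
          rw [Finset.sum_insert hj, Finset.sum_insert hj, Finset.sum_insert hj]
          have e1 : z + (f j + ∑ j ∈ s, f j) = f j + (z + ∑ j ∈ s, f j) := by abel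
          have e2 : 2 + ((m j + 1) * (C * Y) + ∑ j ∈ s, (m j + 1) * (C * Y)) =
              (m j + 1) * (C * Y) + (2 + ∑ j ∈ s, (m j + 1) * (C * Y)) := by ring
          have e3 : 2 + ((m j + 1) * C + ∑ j ∈ s, (m j + 1) * C) =
              (m j + 1) * C + (2 + ∑ j ∈ s, (m j + 1) * C) := by ring
          rw [e1, e2, e3]
          exact hadd _ _ _ _ _ _ (hf j) ih
      refine hmono _ _ _ _ ?_ le_rfl (h1 Finset.univ)
      have e3 : ∑ j, (m j + 1) * (C * Y) = (∑ j, (m j + 1) * C) * Y := by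
        rw [Finset.sum_mul]
        exact Finset.sum_congr rfl fun j _ => by ring
      rw [e3, hL, add_mul]
      omega
    have hcard : Y ^ D = (Fintype.piFinset fun j : Fin r => Finset.range (Y ^ m j)).card := by
      rw [Fintype.card_piFinset]
      simp only [Finset.card_range]
      rw [Finset.prod_pow_eq_pow_sum]
    rw [hcard]
    refine Finset.card_le_card_of_injOn (fun x => ∑ j, (a j (x j) - b j (x j))) (fun x hx => ?_)
      (fun x hx x' hx' e => ?_)
    · have hx1 : ∀ j, x j < Y ^ m j := fun j => by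
        have := Fintype.mem_piFinset.1 (Finset.mem_coe.1 hx) j
        simpa using this
      have e : ∑ j, (a j (x j) - b j (x j)) =
          (z + ∑ j, a j (x j)) - (z + ∑ j, b j (x j)) := by
        rw [Finset.sum_sub_distrib]; abel
      show ∑ j, (a j (x j) - b j (x j)) ∈ _
      rw [e]
      exact Finset.sub_mem_sub (hsum _ fun j => (hab j _ (hx1 j)).1)
        (hsum _ fun j => (hab j _ (hx1 j)).2.1)
    · have hx1 : ∀ j, x j < Y ^ m j := fun j => by
        have := Fintype.mem_piFinset.1 (Finset.mem_coe.1 hx) j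
        simpa using this
      have hx2 : ∀ j, x' j < Y ^ m j := fun j => by
        have := Fintype.mem_piFinset.1 (Finset.mem_coe.1 hx') j
        simpa using this
      exact inj_of hV a b Y (fun j x hx => (hab j x hx).2.2.1) (fun j x hx => (hab j x hx).2.2.2)
        x x' hx1 hx2 e
  intro Y hY A A' hA hA'
  have h1 := Finset.ruzsa_triangle_inequality_sub_add_add A A A
  have h2 : (A + A).card ≤ A'.card := Finset.card_le_card fun w hw => by
    obtain ⟨a, ha, b, hb, rfl⟩ := Finset.mem_add.1 hw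
    exact hA' a ha b hb
  calc Y ^ D * A.card ≤ (A - A).card * A.card :=
        Nat.mul_le_mul_right _ ((box Y hY).trans (Finset.card_le_card (Finset.sub_subset_sub hA hA)))
    _ ≤ (A + A).card * (A + A).card := h1
    _ ≤ A'.card * A'.card := Nat.mul_le_mul h2 h2
    _ = _ := (sq _).symm

/-- **Growth, without a bound for the second parameter.** -/
theorem growth (hm : ∀ i, 1 ≤ m i) (hV : Indep m V)
    (hadd : ∀ X Y B B' a b, a ∈ S X B → b ∈ S Y B' → a + b ∈ S (X + Y) (B + B'))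
    (hmono : ∀ X Y B B', X ≤ Y → B ≤ B' → S X B ⊆ S Y B') (hne : (S 2 2).Nonempty) (C : ℕ)
    (hF : ∀ (j : Fin r) (Y : ℕ), 1 ≤ Y → ∀ q : Fin (m j) → ℕ, (∀ t, q t ≤ Y) →
      Diff m V S j (C * Y) C (∏ t, q t)) :
    ∃ L : ℕ, 0 < L ∧ ∀ X : ℕ, 2 ≤ X → X ^ (∑ i, m i) ≤ L * (S X X).card := by
  classical
  obtain ⟨L, hL2, -, hbox⟩ := box hm hV hadd hmono hne C hF
  obtain ⟨z, hz⟩ := hne
  set D := ∑ i, m i with hD
  -- the recursion
  have step : ∀ Y, 1 ≤ Y → Y ^ D * (S (L * Y) (L * Y)).card ≤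
      (S (L * (2 * Y)) (L * (2 * Y))).card ^ 2 := by
    intro Y hY
    refine hbox Y hY (S (L * Y) (L * Y)) (S (L * (2 * Y)) (L * (2 * Y)))
      (hmono _ _ _ _ le_rfl (Nat.le_mul_of_pos_right _ hY)) (fun a ha b hb => ?_)
    have := hadd _ _ _ _ _ _ ha hb
    have e : L * Y + L * Y = L * (2 * Y) := by ring
    rwa [e] at this
  have hpos : ∀ X, 2 ≤ X → 1 ≤ (S X X).card := fun X hX =>
    Finset.card_pos.2 ⟨z, hmono _ _ _ _ hX hX hz⟩
  have claim : ∀ Y, 1 ≤ Y → Y ^ D ≤ 9 ^ D * (S (L * Y) (L * Y)).card := by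
    intro Y
    induction Y using Nat.strong_induction_on with
    | _ Y ih =>
      intro hY
      by_cases h1 : Y = 1
      · subst h1
        rw [one_pow]
        exact Nat.one_le_iff_ne_zero.2 (by
          have := hpos (L * 1) (by omega)
          positivity)
      · have h2 : 1 ≤ Y / 2 := by omega
        have h3 := ih (Y / 2) (by omega) h2
        have h4 := step (Y / 2) h2
        have h5 : (S (L * (2 * (Y / 2))) (L * (2 * (Y / 2)))).card ≤ (S (L * Y) (L * Y)).card :=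
          Finset.card_le_card (hmono _ _ _ _ (Nat.mul_le_mul_left _ (by omega))
            (Nat.mul_le_mul_left _ (by omega)))
        set Z := Y / 2
        set h := (S (L * Y) (L * Y)).card
        have h6 : (Z ^ D) ^ 2 ≤ (3 ^ D * h) ^ 2 := by
          calc (Z ^ D) ^ 2 = Z ^ D * Z ^ D := sq _
            _ ≤ Z ^ D * (9 ^ D * (S (L * Z) (L * Z)).card) := Nat.mul_le_mul_left _ h3
            _ = 9 ^ D * (Z ^ D * (S (L * Z) (L * Z)).card) := by ring
            _ ≤ 9 ^ D * (S (L * (2 * Z)) (L * (2 * Z))).card ^ 2 := Nat.mul_le_mul_left _ h4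
            _ ≤ 9 ^ D * h ^ 2 := Nat.mul_le_mul_left _ (Nat.pow_le_pow_left h5 2)
            _ = (3 ^ D * h) ^ 2 := by
              rw [mul_pow, ← pow_mul, mul_comm D 2, pow_mul]; norm_num
        have h7 : Z ^ D ≤ 3 ^ D * h := (Nat.pow_le_pow_iff_left (by norm_num)).1 h6
        calc Y ^ D ≤ (3 * Z) ^ D := Nat.pow_le_pow_left (by omega) D
          _ = 3 ^ D * Z ^ D := mul_pow _ _ _
          _ ≤ 3 ^ D * (3 ^ D * h) := Nat.mul_le_mul_left _ h7
          _ = 9 ^ D * h := by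
            rw [← mul_assoc, ← mul_pow]; norm_num
  refine ⟨(18 * L) ^ D, by positivity, fun X hX => ?_⟩
  by_cases hXL : X < L
  · calc X ^ D ≤ (18 * L) ^ D := Nat.pow_le_pow_left (by omega) D
      _ = (18 * L) ^ D * 1 := (mul_one _).symm
      _ ≤ _ := Nat.mul_le_mul_left _ (hpos X hX)
  · have hY : 1 ≤ X / L := by
      rw [Nat.le_div_iff_mul_le (by omega)]; omega
    have h1 := claim (X / L) hY
    have h2 : X < L * (X / L) + L := by
      have := Nat.div_add_mod X L
      have := Nat.mod_lt X (show 0 < L by omega)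
      omega
    have h3 : L ≤ L * (X / L) := Nat.le_mul_of_pos_right _ hY
    have h4 : (S (L * (X / L)) (L * (X / L))).card ≤ (S X X).card :=
      Finset.card_le_card (hmono _ _ _ _ (Nat.mul_div_le X L) (Nat.mul_div_le X L))
    calc X ^ D ≤ (2 * L * (X / L)) ^ D := Nat.pow_le_pow_left (by nlinarith) D
      _ = (2 * L) ^ D * (X / L) ^ D := mul_pow _ _ _
      _ ≤ (2 * L) ^ D * (9 ^ D * (S (L * (X / L)) (L * (X / L))).card) := Nat.mul_le_mul_left _ h1
      _ = (18 * L) ^ D * (S (L * (X / L)) (L * (X / L))).card := by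
        rw [← mul_assoc, ← mul_pow]; congr 2; ring
      _ ≤ _ := Nat.mul_le_mul_left _ h4

/-- **Growth, with a bound for the second parameter.** -/
theorem growth_bdd (hm : ∀ i, 1 ≤ m i) (hV : Indep m V)
    (hadd : ∀ X Y B B' a b, a ∈ S X B → b ∈ S Y B' → a + b ∈ S (X + Y) (B + B'))
    (hmono : ∀ X Y B B', X ≤ Y → B ≤ B' → S X B ⊆ S Y B') (hne : (S 2 2).Nonempty) (C : ℕ)
    (hF : ∀ (j : Fin r) (Y : ℕ), 1 ≤ Y → ∀ q : Fin (m j) → ℕ, (∀ t, q t ≤ Y) →
      Diff m V S j (C * Y) C (∏ t, q t)) (t : ℕ) :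
    ∃ L B : ℕ, 2 ≤ L ∧ 2 ≤ B ∧ ∀ Y : ℕ, 1 ≤ Y →
      Y ^ ((∑ i, m i) * (2 ^ t - 1)) ≤ (S (L * Y) B).card ^ (2 ^ t) := by
  classical
  obtain ⟨L, hL2, hLL, hbox⟩ := box hm hV hadd hmono hne C hF
  obtain ⟨z, hz⟩ := hLL
  set D := ∑ i, m i with hD
  have key : ∀ t : ℕ, ∀ Y : ℕ, 1 ≤ Y →
      Y ^ (D * (2 ^ t - 1)) ≤ (S (2 ^ t * (L * Y)) (2 ^ t * L)).card ^ (2 ^ t) := by
    intro t
    induction t with
    | zero =>
      intro Y hY
      simp only [pow_zero, Nat.sub_self, mul_zero, one_mul, pow_one]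
      exact Finset.card_pos.2 ⟨z, hmono _ _ _ _ (Nat.le_mul_of_pos_right _ hY) le_rfl hz⟩
    | succ t ih =>
      intro Y hY
      have h2t : 1 ≤ 2 ^ t := Nat.one_le_two_pow
      set A := S (2 ^ t * (L * Y)) (2 ^ t * L) with hA
      have h1 := hbox Y hY A (S (2 ^ (t + 1) * (L * Y)) (2 ^ (t + 1) * L))
        (hmono _ _ _ _ (Nat.le_mul_of_pos_left _ h2t)
        (Nat.le_mul_of_pos_left _ h2t)) (fun a ha b hb => by
          have := hadd _ _ _ _ _ _ ha hb
          have e : 2 ^ t * (L * Y) + 2 ^ t * (L * Y) = 2 ^ (t + 1) * (L * Y) := by ring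
          have e' : 2 ^ t * L + 2 ^ t * L = 2 ^ (t + 1) * L := by ring
          rwa [e, e'] at this)
      set s := (S (2 ^ (t + 1) * (L * Y)) (2 ^ (t + 1) * L)).card
      have e1 : D * (2 ^ (t + 1) - 1) = D * 2 ^ t + D * (2 ^ t - 1) := by
        rw [← mul_add]
        congr 1
        rw [pow_succ]
        omega
      calc Y ^ (D * (2 ^ (t + 1) - 1)) = (Y ^ D) ^ 2 ^ t * Y ^ (D * (2 ^ t - 1)) := by
            rw [e1, pow_add, pow_mul]
        _ ≤ (Y ^ D) ^ 2 ^ t * A.card ^ 2 ^ t := Nat.mul_le_mul_left _ (ih Y hY)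
        _ = (Y ^ D * A.card) ^ 2 ^ t := (mul_pow _ _ _).symm
        _ ≤ (s ^ 2) ^ 2 ^ t := Nat.pow_le_pow_left h1 _
        _ = s ^ 2 ^ (t + 1) := by rw [← pow_mul, pow_succ, mul_comm 2]
  refine ⟨2 ^ t * L, 2 ^ t * L, ?_, ?_, fun Y hY => ?_⟩
  · exact hL2.trans (Nat.le_mul_of_pos_left _ Nat.one_le_two_pow)
  · exact hL2.trans (Nat.le_mul_of_pos_left _ Nat.one_le_two_pow)
  · have := key t Y hY
    rwa [← mul_assoc] at this

end

end Pool.Agent.H66.VG
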