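import Pool.Agent.H66.VG.Final

/-!
# The number of knots which are separated by additive Vassiliev invariants: the theorem
-/

set_option autoImplicit false

namespace Pool.Agent.H66.VG

open Pool.Agent.H835R2 Pool.Agent.H835R2.Knot Pool.Agent.H835R2.Flat Pool.Agent.Y466.FT
open Piece

/-- A knot diagram has a maximum and a minimum. -/
theorem crossings_le {D : Word} (hD : IsKnot D) : crossings D + 2 ≤ D.length := by
  obtain ⟨b, y, rfl⟩ := knot_birth hD
  obtain ⟨D', e, -⟩ := knot_last hD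
  cases D' with
  | nil => simp at e
  | cons p y' =>
    rw [List.cons_append, List.cons.injEq] at e
    obtain ⟨rfl, rfl⟩ := e
    have h1 : crossings (Piece.birth 0 b :: (y' ++ [.death 0])) = y'.countP Piece.isCrossing := by
      unfold crossings
      rw [List.countP_cons, List.countP_append]
      simp [isCrossing]
    have h2 : y'.countP Piece.isCrossing ≤ y'.length := List.countP_le_length
    rw [h1, List.length_cons, List.length_append, List.length_singleton]
    omega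

section
variable {K : Type} {r : ℕ} (w : Fin r → Word → K) (m : Fin r → ℕ)

/-- The vector of the values at a diagram. -/
def val (D : Word) : Fin r → K := fun i => w i D

open Classical in
/-- The vectors of the values at the knot diagrams of size at most `X` with at most `B` maxima. -/
noncomputable def SX (X B : ℕ) : Finset (Fin r → K) := (KX_finite X B).toFinset.image (val w)

theorem mem_SX {X B : ℕ} {a : Fin r → K} : a ∈ SX w X B ↔ ∃ D ∈ KX X B, val w D = a := by
  classical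
  unfold SX
  rw [Finset.mem_image]
  simp only [Set.Finite.mem_toFinset]

theorem SX_mono (X Y B B' : ℕ) (h : X ≤ Y) (hB : B ≤ B') : SX w X B ⊆ SX w Y B' := by
  intro a ha
  obtain ⟨D, hD, rfl⟩ := (mem_SX w).1 ha
  exact (mem_SX w).2 ⟨D, KX_mono h hB hD, rfl⟩

/-- Representatives of the vectors. -/
theorem exists_reps (X B : ℕ) : ∃ T : Finset Word, (∀ D ∈ T, D ∈ KX X B) ∧
    T.card = (SX w X B).card ∧ ∀ D ∈ T, ∀ E ∈ T, D ≠ E → ∃ i, w i D ≠ w i E := by
  classical
  have hrep : ∀ s : SX w X B, ∃ D ∈ KX X B, val w D = s.1 := fun s => (mem_SX w).1 s.2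
  choose g hg1 hg2 using hrep
  refine ⟨Finset.univ.image g, fun D hD => ?_, ?_, fun D hD E hE hne => ?_⟩
  · obtain ⟨s, -, rfl⟩ := Finset.mem_image.1 hD
    exact hg1 s
  · rw [Finset.card_image_of_injective _ (fun s t hst => by
      apply Subtype.ext
      rw [← hg2 s, ← hg2 t, hst])]
    rw [Finset.card_univ, Fintype.card_coe]
  · obtain ⟨s, -, rfl⟩ := Finset.mem_image.1 hD
    obtain ⟨t, -, rfl⟩ := Finset.mem_image.1 hE
    by_contra hcon
    push Not at hcon
    apply hne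
    have : s = t := by
      apply Subtype.ext
      rw [← hg2 s, ← hg2 t]
      funext i
      exact hcon i
    rw [this]

end

section
variable {K : Type} [Field K] [CharZero K] {r : ℕ} (w : Fin r → Word → K) (m : Fin r → ℕ)

omit [CharZero K] in
theorem SX_add (hinv : ∀ i, IsInvariant (w i)) (hadd : ∀ i, Additive (w i)) (X Y B B' : ℕ)
    (a b : Fin r → K) (ha : a ∈ SX w X B) (hb : b ∈ SX w Y B') :
    a + b ∈ SX w (X + Y) (B + B') := by
  obtain ⟨D, hD, rfl⟩ := (mem_SX w).1 ha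
  obtain ⟨E, hE, rfl⟩ := (mem_SX w).1 hb
  obtain ⟨G, hG, h⟩ := exists_sum (A := K) hD hE
  refine (mem_SX w).2 ⟨G, hG, ?_⟩
  funext i
  exact h (w i) (hinv i) (hadd i)

omit [CharZero K] in
theorem one_family (hinv : ∀ i, IsInvariant (w i)) (hdeg : ∀ i, DegreeLE (m i) (w i))
    (hadd : ∀ i, Additive (w i)) (j : Fin r) (M : MWord) (hM : M ∈ SK (m j)) :
    ∃ C : ℕ, ∀ Y : ℕ, 1 ≤ Y → ∀ q : Fin (m j) → ℕ, (∀ t, q t ≤ Y) →
      ∃ a ∈ SX w (C * Y) C, ∃ b ∈ SX w (C * Y) C, (∀ i, m i < m j → a i - b i = 0) ∧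
        (∀ i, m i = m j → a i - b i = ((∏ t, q t : ℕ) : K) * malt M (ext (w i))) := by
  obtain ⟨hc, hk, hn⟩ := hM
  obtain ⟨k, u₀, v, u, hk', hp, hf⟩ := exists_family M hc
  have hkm : k = m j := by rw [hk', hn]
  subst hkm
  have h1 : IsKnot (family u₀ v u 1) := by
    have h2 := (hf [] ℤ (fun _ => (1 : ℤ)) (fun _ _ _ _ => rfl)).1
    rw [List.nil_append, List.nil_append] at h2
    by_contra hne
    rw [ext, if_neg hne, ext, if_pos hk] at h2
    exact absurd h2 (by norm_num)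
  obtain ⟨hkn, hPD⟩ := base u₀ u hp h1
  refine ⟨2 ^ (m j) * (szC u₀ v u + 2), fun Y hY q hq => ?_⟩
  -- the parameter which bounds the number of maxima is multiplied by the same factors
  obtain ⟨a, ha, b, hb, e⟩ := mix_mem (m j) (fun p => val w (family u₀ v u p)) q
    (fun n => {a | a ∈ SX w (n * (szC u₀ v u * Y + 2)) (n * (szC u₀ v u + 2))})
    (fun X Y' a b ha hb => by
      have := SX_add w hinv hadd _ _ _ _ a b ha hb
      rw [← add_mul, ← add_mul] at this
      exact this) 1 (fun p hpq => by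
      have hs := family_size u₀ v u p hY (fun i => ⟨(hpq i).1, (hpq i).2.trans (by
        exact_mod_cast hq i)⟩)
      have h2 : val w (family u₀ v u p) ∈ SX w (szC u₀ v u * Y) (szC u₀ v u) :=
        (mem_SX w).2 ⟨_, ⟨hkn p, hs.1, hs.2, family_maxima u₀ v u p⟩, rfl⟩
      have h3 : val w circle ∈ SX w 2 2 := (mem_SX w).2 ⟨_, circle_KX le_rfl (by norm_num), rfl⟩
      refine ⟨_, ?_, _, ?_, (add_sub_cancel_right _ (val w circle)).symm⟩
      · show _ ∈ SX w (1 * (szC u₀ v u * Y + 2)) (1 * (szC u₀ v u + 2))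
        rw [one_mul, one_mul]
        exact SX_add w hinv hadd _ _ _ _ _ _ h2 h3
      · show _ ∈ SX w (1 * (szC u₀ v u * Y + 2)) (1 * (szC u₀ v u + 2))
        rw [one_mul, one_mul]
        exact SX_mono w _ _ _ _ (by omega) (by omega) h3)
  have ha' : a ∈ SX w (2 ^ (m j) * 1 * (szC u₀ v u * Y + 2)) (2 ^ (m j) * 1 * (szC u₀ v u + 2)) := ha
  have hb' : b ∈ SX w (2 ^ (m j) * 1 * (szC u₀ v u * Y + 2)) (2 ^ (m j) * 1 * (szC u₀ v u + 2)) := hb
  rw [mul_one] at ha' hb'
  have hle : 2 ^ (m j) * (szC u₀ v u * Y + 2) ≤ 2 ^ (m j) * (szC u₀ v u + 2) * Y := by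
    rw [mul_assoc, add_mul]
    exact Nat.mul_le_mul_left _ (by omega)
  have hcomp : ∀ i, a i - b i = mix (m j) (fun p => w i (family u₀ v u p)) q := by
    intro i
    have := congrFun e i
    rw [mix_apply] at this
    exact this.symm
  refine ⟨a, SX_mono w _ _ _ _ hle le_rfl ha', b, SX_mono w _ _ _ _ hle le_rfl hb',
    fun i hi => ?_, fun i hi => ?_⟩
  · rw [hcomp]
    exact mix_small _ _ (PD_mono (by omega) (hPD (m i) (w i) (hinv i) (hdeg i))) q
  · rw [hcomp, mix_prod _ _ (PD_mono (by omega) (hPD (m i) (w i) (hinv i) (hdeg i))) q]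
    rw [nsmul_eq_mul]
    congr 1
    have h4 := (hf [] K (w i) (hinv i)).2
    simp only [List.nil_append] at h4
    rw [← h4]
    congr 1
    funext p
    unfold ext
    rw [if_pos (hkn p)]

/-- The hypotheses: `w i` is an additive invariant of order at most `m i ≥ 1`, and for every `k` the
invariants with `m i = k + 1` are linearly independent modulo the invariants of order at most `k`. -/
structure Sys (w : Fin r → Word → K) (m : Fin r → ℕ) : Prop where
  inv : ∀ i, IsInvariant (w i)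
  deg : ∀ i, DegreeLE (m i) (w i)
  add : ∀ i, Additive (w i)
  one : ∀ i, 1 ≤ m i
  ind : ∀ (k : ℕ) (c : Fin r → K), (∀ i, m i ≠ k + 1 → c i = 0) →
    DegreeLE k (fun D => ∑ i, c i * w i D) → c = 0

variable {w m}

omit [CharZero K] in
theorem Sys.data (h : Sys w m) : ∃ (V : Fin r → Fin r → K) (C : ℕ), Indep m V ∧
    ∀ (j : Fin r) (Y : ℕ), 1 ≤ Y → ∀ q : Fin (m j) → ℕ, (∀ t, q t ≤ Y) →
      Diff m V (SX w) j (C * Y) C (∏ t, q t) := by
  obtain ⟨M, hM, hI⟩ := exists_choice w m h.one h.ind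
  have h1 := fun j => one_family w m h.inv h.deg h.add j (M j) (hM j)
  choose C hC using h1
  refine ⟨fun j i => malt (M j) (ext (w i)), ∑ j, C j, hI, fun j Y hY q hq => ?_⟩
  obtain ⟨a, ha, b, hb, h2, h3⟩ := hC j Y hY q hq
  have hle : C j ≤ ∑ j, C j := Finset.single_le_sum (f := C) (fun _ _ => Nat.zero_le _)
    (Finset.mem_univ j)
  exact ⟨a, SX_mono w _ _ _ _ (Nat.mul_le_mul_right _ hle) hle ha, b,
    SX_mono w _ _ _ _ (Nat.mul_le_mul_right _ hle) hle hb, h2, h3⟩

omit [Field K] [CharZero K] in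
theorem ne22 : (SX w 2 2).Nonempty :=
  ⟨_, (mem_SX w).2 ⟨circle, circle_KX le_rfl (by norm_num), rfl⟩⟩

/-- **The theorem.** -/
theorem Sys.main (h : Sys w m) : ∃ c : ℝ, 0 < c ∧ ∀ X : ℕ, ∃ T : Finset Word,
    (∀ D ∈ T, IsKnot D ∧ crossings D ≤ X) ∧ c * (X : ℝ) ^ (∑ i, m i) ≤ T.card ∧
      ∀ D ∈ T, ∀ E ∈ T, D ≠ E → ∃ i, w i D ≠ w i E := by
  obtain ⟨V, C, hI, hF⟩ := h.data
  obtain ⟨L, hL, hg⟩ := growth h.one hI (SX_add w h.inv h.add) (SX_mono w) ne22 C hF
  refine ⟨1 / L, by positivity, fun X => ?_⟩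
  obtain ⟨T, hT1, hT2, hT3⟩ := exists_reps w (X + 2) (X + 2)
  refine ⟨T, fun D hD => ⟨(hT1 D hD).1, ?_⟩, ?_, hT3⟩
  · have := crossings_le (hT1 D hD).1
    have := (hT1 D hD).2.1
    omega
  · rw [hT2]
    have h3 : (X : ℝ) ^ (∑ i, m i) ≤ L * ((SX w (X + 2) (X + 2)).card : ℝ) := by
      have h4 : X ^ (∑ i, m i) ≤ L * (SX w (X + 2) (X + 2)).card :=
        (Nat.pow_le_pow_left (by omega) _).trans (hg (X + 2) (by omega))
      exact_mod_cast h4
    have hL' : (0 : ℝ) < L := by exact_mod_cast hL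
    rw [div_mul_eq_mul_div, one_mul, div_le_iff₀ hL']
    linarith

/-- **The theorem for knots of bounded bridge number.** -/
theorem Sys.main_bdd (h : Sys w m) (ε : ℝ) (hε : 0 < ε) :
    ∃ (B : ℕ) (c : ℝ), 0 < c ∧ ∀ X : ℕ, ∃ T : Finset Word,
    (∀ D ∈ T, IsKnot D ∧ crossings D ≤ X ∧ maxima D ≤ B) ∧
      c * (X : ℝ) ^ (((∑ i, m i : ℕ) : ℝ) - ε) ≤ T.card ∧
      ∀ D ∈ T, ∀ E ∈ T, D ≠ E → ∃ i, w i D ≠ w i E := by
  obtain ⟨V, C, hI, hF⟩ := h.data
  set D := ∑ i, m i with hD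
  obtain ⟨t, ht⟩ : ∃ t : ℕ, (D : ℝ) / 2 ^ t ≤ ε := by
    obtain ⟨t, ht⟩ := pow_unbounded_of_one_lt ((D : ℝ) / ε) (one_lt_two)
    refine ⟨t, ?_⟩
    rw [div_le_iff₀ (by positivity)]
    rw [div_lt_iff₀ hε] at ht
    linarith
  obtain ⟨L, B, hL, hB, hg⟩ := growth_bdd h.one hI (SX_add w h.inv h.add) (SX_mono w) ne22 C hF t
  have hL' : (0 : ℝ) < L := by
    have : (2 : ℝ) ≤ L := by exact_mod_cast hL
    linarith
  set e : ℝ := (D : ℝ) - ε with he
  have hc : (0 : ℝ) < (2 * L : ℝ) ^ (-|e|) := Real.rpow_pos_of_pos (by positivity) _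
  refine ⟨B, (2 * L : ℝ) ^ (-|e|), hc, fun X => ?_⟩
  obtain ⟨T, hT1, hT2, hT3⟩ := exists_reps w (X + 2) B
  refine ⟨T, fun D hD => ⟨(hT1 D hD).1, ?_, (hT1 D hD).2.2.2⟩, ?_, hT3⟩
  · have := crossings_le (hT1 D hD).1
    have := (hT1 D hD).2.1
    omega
  rw [hT2]
  have h2L1 : (1 : ℝ) ≤ 2 * L := by
    have : (2 : ℝ) ≤ L := by exact_mod_cast hL
    linarith
  have hcle : (2 * L : ℝ) ^ (-|e|) ≤ 1 := by
    refine Real.rpow_le_one_of_one_le_of_nonpos h2L1 (by
      have := abs_nonneg e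
      linarith)
  have hpos : (1 : ℝ) ≤ (SX w (X + 2) B).card := by
    have h1 : (SX w (X + 2) B).Nonempty := by
      obtain ⟨z, hz⟩ := ne22 (w := w)
      exact ⟨z, SX_mono w _ _ _ _ (by omega) hB hz⟩
    exact_mod_cast Finset.card_pos.2 h1
  by_cases hXL : X < L ∨ e ≤ 0
  · refine le_trans ?_ hpos
    by_cases hX0 : X = 0
    · subst hX0
      by_cases he0 : e = 0
      · rw [he0]
        simp
      · rw [Nat.cast_zero, Real.zero_rpow he0, mul_zero]
        exact zero_le_one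
    · have hX1 : (1 : ℝ) ≤ X := by exact_mod_cast Nat.one_le_iff_ne_zero.2 hX0
      rcases hXL with hXL | he0
      · have h1 : (X : ℝ) ≤ 2 * L := by
          have : (X : ℝ) < L := by exact_mod_cast hXL
          linarith
        have h2 : (X : ℝ) ^ e ≤ (2 * L : ℝ) ^ |e| :=
          (Real.rpow_le_rpow_of_exponent_le hX1 (le_abs_self e)).trans
            (Real.rpow_le_rpow (by linarith) h1 (abs_nonneg e))
        calc (2 * L : ℝ) ^ (-|e|) * (X : ℝ) ^ e ≤ (2 * L : ℝ) ^ (-|e|) * (2 * L : ℝ) ^ |e| :=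
              mul_le_mul_of_nonneg_left h2 hc.le
          _ = 1 := by
              rw [← Real.rpow_add (by linarith), neg_add_cancel, Real.rpow_zero]
      · have h2 : (X : ℝ) ^ e ≤ 1 := Real.rpow_le_one_of_one_le_of_nonpos hX1 he0
        calc (2 * L : ℝ) ^ (-|e|) * (X : ℝ) ^ e ≤ 1 * 1 :=
              mul_le_mul hcle h2 (by positivity) zero_le_one
          _ = 1 := one_mul 1
  · push Not at hXL
    obtain ⟨hXL, he0⟩ := hXL
    have hY : 1 ≤ X / L := by
      rw [Nat.le_div_iff_mul_le (by omega)]; omega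
    have h1 := hg (X / L) hY
    set Y := X / L with hYd
    set s := (SX w (L * Y) B).card with hs
    have hsle : (s : ℝ) ≤ (SX w (X + 2) B).card := by
      have hLY : L * Y ≤ X := by rw [hYd]; exact Nat.mul_div_le X L
      have : s ≤ (SX w (X + 2) B).card := Finset.card_le_card (SX_mono w _ _ _ _ (by
        omega) le_rfl)
      exact_mod_cast this
    have h2 : (Y : ℝ) ^ ((D : ℝ) * (2 ^ t - 1)) ≤ (s : ℝ) ^ ((2 : ℝ) ^ t) := by
      have h3 : ((Y ^ (D * (2 ^ t - 1)) : ℕ) : ℝ) ≤ ((s ^ 2 ^ t : ℕ) : ℝ) := by exact_mod_cast h1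
      have h4 : ((D * (2 ^ t - 1) : ℕ) : ℝ) = (D : ℝ) * (2 ^ t - 1) := by
        rw [Nat.cast_mul, Nat.cast_sub Nat.one_le_two_pow]
        push_cast
        ring
      have h5 : ((2 ^ t : ℕ) : ℝ) = (2 : ℝ) ^ t := by push_cast; ring
      rw [← h4, ← h5, Real.rpow_natCast, Real.rpow_natCast]
      rw [Nat.cast_pow, Nat.cast_pow] at h3
      exact h3
    have hY1 : (1 : ℝ) ≤ Y := by exact_mod_cast hY
    have h2t : (0 : ℝ) < 2 ^ t := by positivity
    have h6 : (Y : ℝ) ^ e ≤ s := by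
      have h7 : (Y : ℝ) ^ (e * 2 ^ t) ≤ (Y : ℝ) ^ ((D : ℝ) * (2 ^ t - 1)) := by
        refine Real.rpow_le_rpow_of_exponent_le hY1 ?_
        rw [div_le_iff₀ h2t] at ht
        rw [he]
        linarith
      have h8 := h7.trans h2
      rw [Real.rpow_mul (by linarith)] at h8
      exact (Real.rpow_le_rpow_iff (by positivity) (by positivity) h2t).1 h8
    have h9 : (X : ℝ) ≤ 2 * L * Y := by
      have h10 : X < L * Y + L := by
        have e1 := Nat.div_add_mod X L
        have e2 := Nat.mod_lt X (show 0 < L by omega)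
        rw [← hYd] at e1
        omega
      have h11 : L ≤ L * Y := Nat.le_mul_of_pos_right _ hY
      have h12 : X ≤ 2 * L * Y := by nlinarith
      exact_mod_cast h12
    refine le_trans ?_ hsle
    refine le_trans ?_ h6
    rw [abs_of_pos he0]
    calc (2 * L : ℝ) ^ (-e) * (X : ℝ) ^ e ≤ (2 * L : ℝ) ^ (-e) * (2 * L * Y : ℝ) ^ e :=
          mul_le_mul_of_nonneg_left (Real.rpow_le_rpow (Nat.cast_nonneg _) h9 he0.le)
            (by positivity)
      _ = (Y : ℝ) ^ e := by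
          rw [Real.mul_rpow (x := 2 * (L : ℝ)) (y := Y) (by positivity) (by linarith), ← mul_assoc,
            ← Real.rpow_add (by positivity), neg_add_cancel, Real.rpow_zero, one_mul]

end

end Pool.Agent.H66.VG
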