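import Pool.Agent.H66.VG.Main

/-!
# The number of knots which are separated by additive Vassiliev invariants: conclusion
-/

set_option autoImplicit false

namespace Pool.Agent.H66.VG

open Pool.Agent.H835R2 Pool.Agent.H835R2.Knot Pool.Agent.H835R2.Flat Pool.Agent.Y466.FT
open Piece

section
variable {K : Type} [Field K] {r : ℕ} (w : Fin r → Word → K) (m : Fin r → ℕ)

/-- Marked knot diagrams with `k` double points. -/
def SK (k : ℕ) : Set MWord :=
  {M | (∀ x ∈ M, x.2 = true → x.1.isCrossing = true) ∧ IsKnot (pl M) ∧ nm M = k}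

/-- The vectors of the values of the invariants of order `k` at the singular knots with `k` double
points. -/
def vec (k : ℕ) (M : MWord) : {i : Fin r // m i = k} → K := fun i => malt M (ext (w i.1))

theorem malt_sum_smul (M : MWord) (c : Fin r → K) (g : Fin r → Word → K) :
    malt M (fun D => ∑ i, c i * g i D) = ∑ i, c i * malt M (g i) := by
  induction M generalizing g with
  | nil => rfl
  | cons p M ih =>
    obtain ⟨p, b⟩ := p
    cases b with
    | false => exact ih (fun i u => g i (p :: u))
    | true =>
      show malt M (fun u => ∑ i, c i * g i (p :: u)) -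
        malt M (fun u => ∑ i, c i * g i (p.switch :: u)) = _
      rw [ih (fun i u => g i (p :: u)), ih (fun i u => g i (p.switch :: u)),
        ← Finset.sum_sub_distrib]
      refine Finset.sum_congr rfl fun i _ => ?_
      show _ = c i * (malt M (fun u => g i (p :: u)) - malt M (fun u => g i (p.switch :: u)))
      ring

theorem span_vec (hind : ∀ (k : ℕ) (c : Fin r → K), (∀ i, m i ≠ k + 1 → c i = 0) →
      DegreeLE k (fun D => ∑ i, c i * w i D) → c = 0) (k : ℕ) (hk : 1 ≤ k) :
    ⊤ ≤ Submodule.span K (vec w m k '' SK k) := by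
  classical
  by_contra hne
  have hlt : Submodule.span K (vec w m k '' SK k) < ⊤ := lt_top_iff_ne_top.2 fun h => hne h.ge
  obtain ⟨f, hf0, hf⟩ := Submodule.exists_le_ker_of_lt_top _ hlt
  obtain ⟨k', rfl⟩ : ∃ k', k = k' + 1 := ⟨k - 1, by omega⟩
  set c : Fin r → K := fun i => if h : m i = k' + 1 then f (Pi.single ⟨i, h⟩ 1) else 0 with hc
  have hfv : ∀ x : {i : Fin r // m i = k' + 1} → K, f x = ∑ i, c i.1 * x i := by
    intro x
    conv_lhs => rw [← Finset.univ_sum_single x]
    rw [map_sum]
    refine Finset.sum_congr rfl fun i _ => ?_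
    have e1 : (Pi.single i (x i) : {i : Fin r // m i = k' + 1} → K) = x i • Pi.single i 1 := by
      rw [← Pi.single_smul, smul_eq_mul, mul_one]
    have e2 : c i.1 = f (Pi.single i 1) := by
      rw [hc]
      exact dif_pos i.2
    rw [e1, map_smul, smul_eq_mul, e2, mul_comm]
  have h0 : c = 0 := by
    refine hind k' c (fun i hi => dif_neg hi) ?_
    intro D hD T hT hcard
    have h1 : mk D T ∈ SK (k' + 1) :=
      ⟨mk_cross D T hT, by rw [pl_mk]; exact hD, by rw [← mset_card, mset_mk D T hT, hcard]⟩
    have h2 : f (vec w m (k' + 1) (mk D T)) = 0 := hf (Submodule.subset_span ⟨_, h1, rfl⟩)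
    rw [hfv] at h2
    refine (malt_mk D T hT hD (fun D => ∑ i, c i * w i D)).symm.trans ?_
    have e : ext (fun D => ∑ i, c i * w i D) = fun D => ∑ i, c i * ext (w i) D := by
      funext D
      unfold ext
      by_cases h : IsKnot D
      · simp [h]
      · simp [h]
    rw [e, malt_sum_smul, ← h2]
    have e3 : ∑ i : {i : Fin r // m i = k' + 1}, c i.1 * vec w m (k' + 1) (mk D T) i =
        ∑ i ∈ Finset.univ.filter (fun i => m i = k' + 1), c i * malt (mk D T) (ext (w i)) := by
      rw [← Finset.sum_subtype_eq_sum_filter]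
      simp only [Finset.subtype_univ]
      rfl
    rw [e3, Finset.sum_filter]
    refine Finset.sum_congr rfl fun i _ => ?_
    by_cases hi : m i = k' + 1
    · rw [if_pos hi]
    · rw [if_neg hi, hc]
      simp only [dif_neg hi, zero_mul]
  apply hf0
  ext i
  rw [LinearMap.comp_apply, LinearMap.comp_apply]
  show f (Pi.single i 1) = 0
  have : c i.1 = 0 := by rw [h0]; rfl
  rw [hc] at this
  simp only [dif_pos i.2] at this
  exact this

/-- A choice of singular knots. -/
theorem exists_choice (hm : ∀ i, 1 ≤ m i)
    (hind : ∀ (k : ℕ) (c : Fin r → K), (∀ i, m i ≠ k + 1 → c i = 0) →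
      DegreeLE k (fun D => ∑ i, c i * w i D) → c = 0) :
    ∃ M : Fin r → MWord, (∀ j, M j ∈ SK (m j)) ∧
      Indep m (fun j i => malt (M j) (ext (w i))) := by
  classical
  have h1 : ∀ k : ℕ, ∃ N : {i : Fin r // m i = k} → MWord, (∀ j, N j ∈ SK k) ∧
      LinearIndependent K (fun j => vec w m k (N j)) := by
    intro k
    by_cases hk : 1 ≤ k
    · have hs := span_vec w m hind k hk
      let b := Module.Basis.ofSpan hs
      let b' := Pi.basisFun K {i : Fin r // m i = k}
      let e := b'.indexEquiv b
      have hb : ∀ j, ∃ N ∈ SK k, vec w m k N = b (e j) := fun j =>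
        Module.Basis.ofSpan_subset hs ⟨e j, rfl⟩
      choose N hN hN' using hb
      refine ⟨N, hN, ?_⟩
      have : (fun j => vec w m k (N j)) = b ∘ e := funext hN'
      rw [this]
      exact b.linearIndependent.comp e e.injective
    · have he : IsEmpty {i : Fin r // m i = k} := ⟨fun i => hk (by
        have := hm i.1
        rw [i.2] at this
        exact this)⟩
      exact ⟨fun i => he.elim i, fun i => he.elim i, linearIndependent_empty_type⟩
  choose N hN hNi using h1
  refine ⟨fun j => N (m j) ⟨j, rfl⟩, fun j => hN _ _, fun k c hc h => ?_⟩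
  have h2 := Fintype.linearIndependent_iff.1 (hNi k) (fun j => c j.1) (by
    funext i
    rw [Finset.sum_apply]
    have h3 := h i.1 i.2
    rw [Pi.zero_apply, ← h3]
    rw [← Finset.sum_subset (Finset.subset_univ (Finset.univ.filter fun j => m j = k))
      (fun j _ hj => by
        rw [hc j (fun h => hj (Finset.mem_filter.2 ⟨Finset.mem_univ _, h⟩)), zero_mul])]
    rw [← Finset.sum_subtype_eq_sum_filter]
    simp only [Finset.subtype_univ]
    refine Finset.sum_congr rfl fun j _ => ?_
    obtain ⟨j, hj⟩ := j
    subst hj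
    rfl)
  funext j
  by_cases hj : m j = k
  · exact h2 ⟨j, hj⟩
  · exact hc j hj

end

end Pool.Agent.H66.VG
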