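import Pool.Agent.H66.VG.End

/-!
# The number of knots which are separated by additive Vassiliev invariants: dimensions
-/

set_option autoImplicit false

namespace Pool.Agent.H66.VG

open Pool.Agent.H835R2 Pool.Agent.H835R2.Knot Pool.Agent.H835R2.Flat Pool.Agent.Y466.FT
open Piece

section
variable (K : Type) [Field K]

/-- The vector space of the additive Vassiliev invariants of order at most `n` with values in the
field `K`. -/
def Prim (n : ℕ) : Submodule K (Word → K) where
  carrier := {v | IsInvariant v ∧ DegreeLE n v ∧ Additive v}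
  add_mem' := by
    rintro v v' ⟨h1, h2, h3⟩ ⟨h1', h2', h3'⟩
    refine ⟨fun D E hD hDE => ?_, fun D hD S hS hc => ?_, fun x y b hx hy hb => ?_⟩
    · show v D + v' D = v E + v' E
      rw [h1 D E hD hDE, h1' D E hD hDE]
    · show ∑ T ∈ S.powerset, (-1 : ℤ) ^ T.card • (v (switchAt T D) + v' (switchAt T D)) = 0
      simp only [smul_add]
      rw [Finset.sum_add_distrib, h2 D hD S hS hc, h2' D hD S hS hc, add_zero]
    · show v (x ++ y) + v' (x ++ y) = (v _ + v' _) + (v _ + v' _)
      rw [h3 x y b hx hy hb, h3' x y b hx hy hb]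
      abel
  zero_mem' := by
    refine ⟨fun D E hD hDE => rfl, fun D hD S hS hc => ?_, fun x y b hx hy hb => ?_⟩
    · exact Finset.sum_eq_zero fun T _ => smul_zero _
    · exact (add_zero (0 : K)).symm
  smul_mem' := by
    rintro a v ⟨h1, h2, h3⟩
    refine ⟨fun D E hD hDE => ?_, fun D hD S hS hc => ?_, fun x y b hx hy hb => ?_⟩
    · show a * v D = a * v E
      rw [h1 D E hD hDE]
    · show ∑ T ∈ S.powerset, (-1 : ℤ) ^ T.card • (a * v (switchAt T D)) = 0
      have e : ∀ T : Finset ℕ, (-1 : ℤ) ^ T.card • (a * v (switchAt T D)) =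
          a * ((-1 : ℤ) ^ T.card • v (switchAt T D)) := fun T => (mul_smul_comm _ _ _).symm
      simp only [e]
      rw [← Finset.mul_sum, h2 D hD S hS hc, mul_zero]
    · show a * v (x ++ y) = a * v _ + a * v _
      rw [h3 x y b hx hy hb, mul_add]

theorem mem_Prim {n : ℕ} {v : Word → K} :
    v ∈ Prim K n ↔ IsInvariant v ∧ DegreeLE n v ∧ Additive v := Iff.rfl

/-- The dimension of the space of the additive Vassiliev invariants of order at most `k + 1` modulo
those of order at most `k`. -/
noncomputable def primDim (k : ℕ) : ℕ :=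
  Module.finrank K (Prim K (k + 1) ⧸ (Prim K k).submoduleOf (Prim K (k + 1)))

/-- `1 · p₁ + 2 · p₂ + ⋯ + N · p_N`, where `p_k` is the dimension of the space of the additive
invariants of order at most `k` modulo those of order at most `k - 1`. -/
noncomputable def weight (N : ℕ) : ℕ := ∑ k ∈ Finset.range N, (k + 1) * primDim K k

theorem exists_sys (N : ℕ) : ∃ (r : ℕ) (w : Fin r → Word → K) (m : Fin r → ℕ), Sys w m ∧
    (∀ i, m i ≤ N) ∧ ∑ i, m i = weight K N := by
  classical
  have h1 : ∀ k : ℕ, ∃ g : Fin (primDim K k) → Prim K (k + 1), LinearIndependent K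
      (fun j => ((Prim K k).submoduleOf (Prim K (k + 1))).mkQ (g j)) := by
    intro k
    obtain ⟨f, hf⟩ := exists_linearIndependent_of_le_finrank
      (R := K) (M := Prim K (k + 1) ⧸ (Prim K k).submoduleOf (Prim K (k + 1)))
      (n := primDim K k) le_rfl
    choose g hg using fun j => Submodule.mkQ_surjective
      ((Prim K k).submoduleOf (Prim K (k + 1))) (f j)
    refine ⟨g, ?_⟩
    have : (fun j => ((Prim K k).submoduleOf (Prim K (k + 1))).mkQ (g j)) = f := funext hg
    rw [this]
    exact hf
  choose g hg using h1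
  set I := Σ k : Fin N, Fin (primDim K k) with hI
  let e : Fin (Fintype.card I) ≃ I := (Fintype.equivFin I).symm
  let G : I → Word → K := fun x => (g x.1 x.2 : Prim K (x.1 + 1)).1
  refine ⟨Fintype.card I, fun i => G (e i),
    fun i => (e i).1 + 1, ?_, fun i => (e i).1.2, ?_⟩
  · refine ⟨fun i => (g (e i).1 (e i).2).2.1, fun i => (g (e i).1 (e i).2).2.2.1,
      fun i => (g (e i).1 (e i).2).2.2.2, fun i => by omega, fun k c hc hdeg => ?_⟩
    by_cases hk : k < N
    · have hsum : (fun D => ∑ i, c i * G (e i) D) =
          ((∑ j, c (e.symm ⟨⟨k, hk⟩, j⟩) • g k j : Prim K (k + 1)) : Word → K) := by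
        funext D
        rw [← Equiv.sum_comp e.symm]
        simp only [Equiv.apply_symm_apply]
        rw [Fintype.sum_sigma, Finset.sum_eq_single (⟨k, hk⟩ : Fin N)]
        · rw [Submodule.coe_sum, Finset.sum_apply]
          rfl
        · intro k' _ hk'
          refine Finset.sum_eq_zero fun j _ => ?_
          rw [hc _ (by
            simp only [Equiv.apply_symm_apply]
            intro h
            exact hk' (Fin.ext (by
              show k'.val = k
              omega))), zero_mul]
        · intro h
          exact absurd (Finset.mem_univ _) h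
      rw [hsum] at hdeg
      have hmem : (∑ j, c (e.symm ⟨⟨k, hk⟩, j⟩) • g k j : Prim K (k + 1)) ∈
          (Prim K k).submoduleOf (Prim K (k + 1)) := by
        refine Submodule.mem_comap.2 ?_
        have h2 := (∑ j, c (e.symm ⟨⟨k, hk⟩, j⟩) • g k j : Prim K (k + 1)).2
        exact ⟨h2.1, hdeg, h2.2.2⟩
      have h3 := Fintype.linearIndependent_iff.1 (hg k) (fun j => c (e.symm ⟨⟨k, hk⟩, j⟩)) (by
        rw [← (Submodule.Quotient.mk_eq_zero _).2 hmem]
        rw [← Submodule.mkQ_apply, map_sum]
        refine Finset.sum_congr rfl fun j _ => ?_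
        rw [map_smul])
      funext i
      by_cases hi : ((e i).1 : ℕ) = k
      · have h4 : ∀ x : I, (x.1 : ℕ) = k → c (e.symm x) = 0 := by
          rintro ⟨⟨k', hk'⟩, j⟩ hx
          obtain rfl : k' = k := hx
          exact h3 j
        have h5 := h4 (e i) hi
        rwa [Equiv.symm_apply_apply] at h5
      · exact hc i (by omega)
    · funext i
      refine hc i ?_
      have := (e i).1.2
      omega
  · rw [← Equiv.sum_comp e.symm]
    simp only [Equiv.apply_symm_apply]
    rw [Fintype.sum_sigma]
    simp only [Finset.sum_const, Finset.card_univ, Fintype.card_fin, smul_eq_mul]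
    unfold weight
    rw [Finset.sum_range]
    exact Finset.sum_congr rfl fun k _ => mul_comm _ _

end

end Pool.Agent.H66.VG
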