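import Pool.Graph.R_seed8.Y466.FT.Base

/-!
# Mixed differences of polynomial functions, and families with full twists
-/

set_option autoImplicit false

namespace Pool.Agent.H66.VG

open Pool.Agent.H835R2 Pool.Agent.H835R2.Knot Pool.Agent.H835R2.Flat Pool.Agent.Y466.FT
open Piece

section
variable {G : Type*} [AddCommGroup G]

/-- The mixed difference of `f` with the steps `q i` at the origin: the alternating sum of the values
at the vertices of the box with the sides `q i`. -/
def mix : (k : ℕ) → ((Fin k → ℤ) → G) → (Fin k → ℕ) → G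
  | 0, f, _ => f 0
  | k + 1, f, q => mix k (fun p => f (Fin.cons (q 0 : ℤ) p) - f (Fin.cons 0 p)) (Fin.tail q)

theorem mix_zero_fun (k : ℕ) (q : Fin k → ℕ) : mix k (fun _ => (0 : G)) q = 0 := by
  induction k with
  | zero => rfl
  | succ k ih =>
    show mix k (fun _ => (0 : G) - 0) (Fin.tail q) = 0
    simp only [sub_zero]
    exact ih _

theorem mix_sub (k : ℕ) (f g : (Fin k → ℤ) → G) (q : Fin k → ℕ) :
    mix k (fun p => f p - g p) q = mix k f q - mix k g q := by
  induction k with
  | zero => rfl
  | succ k ih =>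
    show mix k (fun p => (f (Fin.cons (q 0 : ℤ) p) - g (Fin.cons (q 0 : ℤ) p)) -
      (f (Fin.cons 0 p) - g (Fin.cons 0 p))) (Fin.tail q) = _
    have e : (fun p : Fin k → ℤ => (f (Fin.cons (q 0 : ℤ) p) - g (Fin.cons (q 0 : ℤ) p)) -
        (f (Fin.cons 0 p) - g (Fin.cons 0 p))) =
        fun p => (f (Fin.cons (q 0 : ℤ) p) - f (Fin.cons 0 p)) -
          (g (Fin.cons (q 0 : ℤ) p) - g (Fin.cons 0 p)) := by
      funext p; abel
    rw [e, ih]
    rfl

theorem mix_sum (k : ℕ) (n : ℕ) (f : ℕ → (Fin k → ℤ) → G) (q : Fin k → ℕ) :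
    mix k (fun p => ∑ s ∈ Finset.range n, f s p) q = ∑ s ∈ Finset.range n, mix k (f s) q := by
  induction n with
  | zero => simpa using mix_zero_fun k q
  | succ n ih =>
    rw [Finset.sum_range_succ, ← ih]
    have e : (fun p : Fin k → ℤ => ∑ s ∈ Finset.range (n + 1), f s p) =
        fun p => ∑ s ∈ Finset.range n, f s p - (0 - f n p) := by
      funext p; rw [Finset.sum_range_succ]; abel
    rw [e, mix_sub, mix_sub, mix_zero_fun]
    abel

/-- One variable step by step. -/
theorem cons_tele (k : ℕ) (f : (Fin (k + 1) → ℤ) → G) (n : ℕ) (p : Fin k → ℤ) :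
    f (Fin.cons (n : ℤ) p) - f (Fin.cons 0 p) =
      ∑ s ∈ Finset.range n, dl 0 f (Fin.cons (s : ℤ) p) := by
  induction n with
  | zero => simp
  | succ n ih =>
    rw [Finset.sum_range_succ, ← ih]
    have e : (Fin.cons (n : ℤ) p : Fin (k + 1) → ℤ) + Pi.single 0 1 = Fin.cons ((n + 1 : ℕ) : ℤ) p := by
      funext l
      refine Fin.cases ?_ (fun l => ?_) l
      · simp
      · simp [Fin.succ_ne_zero l]
    unfold dl
    rw [e]
    abel

theorem mix_succ (k : ℕ) (f : (Fin (k + 1) → ℤ) → G) (q : Fin (k + 1) → ℕ) :
    mix (k + 1) f q = ∑ s ∈ Finset.range (q 0),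
      mix k (fun p => dl 0 f (Fin.cons (s : ℤ) p)) (Fin.tail q) := by
  rw [← mix_sum]
  show mix k _ _ = mix k _ _
  congr 1
  funext p
  exact cons_tele k f (q 0) p

/-- The mixed difference of a polynomial function of small degree. -/
theorem mix_small (k : ℕ) (f : (Fin k → ℤ) → G) (h : PD k f) (q : Fin k → ℕ) : mix k f q = 0 := by
  induction k with
  | zero => exact h 0
  | succ k ih =>
    rw [mix_succ]
    exact Finset.sum_eq_zero fun s _ => ih _ (PD.cons (h 0) _) _

/-- The mixed difference of a polynomial function of degree `k`. -/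
theorem mix_prod (k : ℕ) (f : (Fin k → ℤ) → G) (h : PD (k + 1) f) (q : Fin k → ℕ) :
    mix k f q = (∏ i, q i) • mix k f 1 := by
  induction k with
  | zero => simp [mix]
  | succ k ih =>
    have hs : ∀ s : ℕ, mix k (fun p => dl 0 f (Fin.cons (s : ℤ) p)) 1 =
        mix k (fun p => dl 0 f (Fin.cons (0 : ℤ) p)) 1 := by
      intro s
      induction s with
      | zero => rfl
      | succ s ihs =>
        rw [← ihs]
        have h1 := mix_small k (fun p => dl 0 (dl 0 f) (Fin.cons (s : ℤ) p))
          (PD.cons (h 0 0) _) 1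
        have e : (fun p : Fin k → ℤ => dl 0 (dl 0 f) (Fin.cons (s : ℤ) p)) =
            fun p => dl 0 f (Fin.cons ((s + 1 : ℕ) : ℤ) p) - dl 0 f (Fin.cons (s : ℤ) p) := by
          funext p
          have e : (Fin.cons (s : ℤ) p : Fin (k + 1) → ℤ) + Pi.single 0 1 =
              Fin.cons ((s + 1 : ℕ) : ℤ) p := by
            funext l
            refine Fin.cases ?_ (fun l => ?_) l
            · simp
            · simp [Fin.succ_ne_zero l]
          show dl 0 f ((Fin.cons (s : ℤ) p : Fin (k + 1) → ℤ) + Pi.single 0 1) - _ = _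
          rw [e]
        rw [e, mix_sub] at h1
        exact sub_eq_zero.1 h1
    have h2 : ∀ s : ℕ, mix k (fun p => dl 0 f (Fin.cons (s : ℤ) p)) (Fin.tail q) =
        (∏ i, Fin.tail q i) • mix k (fun p => dl 0 f (Fin.cons (0 : ℤ) p)) 1 := by
      intro s
      rw [ih _ (PD.cons (h 0) _), hs]
    rw [mix_succ, mix_succ]
    simp only [h2]
    rw [Finset.sum_const, Finset.card_range]
    have e1 : (1 : Fin (k + 1) → ℕ) 0 = 1 := rfl
    have e2 : Fin.tail (1 : Fin (k + 1) → ℕ) = 1 := rfl
    rw [e1, e2, Finset.range_one, Finset.sum_singleton, Fin.prod_univ_succ, smul_smul]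
    rfl

/-- The mixed difference is a difference of sums of values. -/
theorem mix_mem (k : ℕ) (f : (Fin k → ℤ) → G) (q : Fin k → ℕ) (S : ℕ → Set G)
    (hS : ∀ X Y a b, a ∈ S X → b ∈ S Y → a + b ∈ S (X + Y)) (X : ℕ)
    (hf : ∀ p : Fin k → ℤ, (∀ i, 0 ≤ p i ∧ p i ≤ q i) → ∃ a ∈ S X, ∃ b ∈ S X, f p = a - b) :
    ∃ a ∈ S (2 ^ k * X), ∃ b ∈ S (2 ^ k * X), mix k f q = a - b := by
  induction k generalizing X with
  | zero =>
    have h0 := hf 0 (fun i => i.elim0)
    rw [pow_zero, one_mul]
    exact h0
  | succ k ih =>
    have h1 := ih (fun p => f (Fin.cons (q 0 : ℤ) p) - f (Fin.cons 0 p)) (Fin.tail q) (X + X)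
      (fun p hp => by
        obtain ⟨a, ha, b, hb, e⟩ := hf (Fin.cons (q 0 : ℤ) p) (fun i => by
          refine Fin.cases ?_ (fun i => ?_) i
          · exact ⟨Int.natCast_nonneg _, le_rfl⟩
          · exact hp i)
        obtain ⟨a', ha', b', hb', e'⟩ := hf (Fin.cons 0 p) (fun i => by
          refine Fin.cases ?_ (fun i => ?_) i
          · exact ⟨le_rfl, Int.natCast_nonneg _⟩
          · exact hp i)
        refine ⟨a + b', hS _ _ _ _ ha hb', b + a', hS _ _ _ _ hb ha', ?_⟩
        rw [e, e']
        abel)
    have e : 2 ^ (k + 1) * X = 2 ^ k * (X + X) := by ring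
    rw [e]
    exact h1

end

/-! ### Families from marked diagrams -/

section
variable {A : Type} [AddCommGroup A]

/-- The letter of a crossing. -/
theorem exists_letter {p : Piece} (h : p.isCrossing = true) :
    ∃ l : Bool × ℕ, piece l = p := by
  cases p with
  | birth i b => simp [isCrossing] at h
  | death i => simp [isCrossing] at h
  | pos i => exact ⟨(true, i), rfl⟩
  | neg i => exact ⟨(false, i), rfl⟩

/-- A second Reidemeister move. -/
theorem ext_second {v : Word → A} (hv : IsInvariant v) (x y : Word) {p : Piece}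
    (h : p.isCrossing = true) : ext v (x ++ [p.switch, p, p] ++ y) = ext v (x ++ [p] ++ y) := by
  by_cases hp : p.Fits (Knot.run x Front.empty)
  · have e1 : x ++ [p.switch, p, p] ++ y = x ++ [p.switch, p] ++ ([p] ++ y) := by simp
    have e2 : x ++ [p] ++ y = x ++ [] ++ ([p] ++ y) := by simp
    rw [e1, e2]
    have hf : Knot.Fits [p.switch, p] (Knot.run x Front.empty) := by
      cases p with
      | birth i b => simp [isCrossing] at h
      | death i => simp [isCrossing] at h
      | pos i => exact ⟨hp, hp, trivial⟩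
      | neg i => exact ⟨hp, hp, trivial⟩
    refine ext_move hv (Or.inl ?_) hf trivial
    cases p with
    | birth i b => simp [isCrossing] at h
    | death i => simp [isCrossing] at h
    | pos i => exact Move.second₂ i
    | neg i => exact Move.second₁ i
  · have h1 : ¬ IsKnot (x ++ [p] ++ y) := by
      intro hk
      have := hk.1.1
      rw [fits_append, fits_append] at this
      exact hp this.1.2.1
    have h2 : ¬ IsKnot (x ++ [p.switch, p, p] ++ y) := by
      intro hk
      have := hk.1.1
      rw [fits_append, fits_append] at this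
      exact hp ((fits_switch p _).1 this.1.2.1)
    unfold ext
    rw [if_neg h1, if_neg h2]

theorem family_cons {k : ℕ} (x u₀ : Word) (w0 : Braid) (w : Fin k → Braid) (u : Fin k → Word)
    (n : ℤ) (q : Fin k → ℤ) :
    family x (Fin.cons w0 w : Fin (k + 1) → Braid) (Fin.cons u₀ u : Fin (k + 1) → Word)
      (Fin.cons n q) = x ++ draw (pow w0 n) ++ family u₀ w u q := by
  unfold family
  rw [List.ofFn_succ]
  simp

theorem draw_pow_zero (w : Braid) : draw (pow w 0) = [] := rfl

theorem draw_pow_one (w : Braid) : draw (pow w 1) = draw w := by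
  have : pow w 1 = w := by
    show (List.replicate 1 w).flatten = _
    simp
  rw [this]

theorem draw_pow_nat (w : Braid) (n : ℕ) : draw (pow w (n : ℤ)) = (List.replicate n (draw w)).flatten := by
  show draw ((List.replicate n w).flatten) = _
  unfold draw
  rw [List.map_flatten, List.map_replicate]

/-- **The family with full twists in place of the marked crossings.** -/
theorem exists_family (M : MWord) (hM : ∀ x ∈ M, x.2 = true → x.1.isCrossing = true) :
    ∃ (k : ℕ) (u₀ : Word) (w : Fin k → Braid) (u : Fin k → Word), k = nm M ∧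
      (∀ j, IsPure (w j)) ∧
      (∀ (x : Word) (A : Type) [AddCommGroup A] (v : Word → A), IsInvariant v →
        ext v (x ++ family u₀ w u 1) = ext v (x ++ pl M) ∧
        mix k (fun q => ext v (x ++ family u₀ w u q)) 1 = malt M (fun D => ext v (x ++ D))) := by
  induction M with
  | nil =>
    refine ⟨0, [], Fin.elim0, Fin.elim0, rfl, fun j => j.elim0, fun x A _ v hv => ⟨rfl, ?_⟩⟩
    rfl
  | cons p M ih =>
    obtain ⟨k, u₀, w, u, hk, hw, h⟩ := ih (fun x hx => hM x (List.mem_cons_of_mem _ hx))
    obtain ⟨p, b⟩ := p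
    cases b with
    | false =>
      refine ⟨k, p :: u₀, w, u, ?_, hw, fun x A _ v hv => ?_⟩
      · rw [hk]; unfold nm; rw [List.countP_cons]; simp
      · have e : ∀ q, x ++ family (p :: u₀) w u q = (x ++ [p]) ++ family u₀ w u q := by
          intro q; unfold family; simp
        have e2 : x ++ pl ((p, false) :: M) = (x ++ [p]) ++ pl M := by
          unfold pl; simp
        have e3 : malt ((p, false) :: M) (fun D => ext v (x ++ D)) =
            malt M (fun D => ext v ((x ++ [p]) ++ D)) := by
          show malt M (fun D => ext v (x ++ (p :: D))) = _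
          congr 1
          funext D
          simp
        simp only [e, e2, e3]
        exact h (x ++ [p]) A v hv
    | true =>
      have hc : p.isCrossing = true := hM (p, true) List.mem_cons_self rfl
      obtain ⟨l, hl⟩ := exists_letter hc
      have hd : draw [l, l] = [p, p] := by
        show [piece l, piece l] = _
        rw [hl]
      refine ⟨k + 1, [p.switch], Fin.cons [l, l] w, Fin.cons u₀ u, ?_, ?_,
        fun x A _ v hv => ?_⟩
      · rw [hk]; unfold nm; rw [List.countP_cons]; simp
      · intro j
        refine Fin.cases ?_ (fun j => ?_) j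
        · show IsPure [l, l]
          unfold IsPure perm
          show Equiv.swap _ _ * (Equiv.swap _ _ * 1) = 1
          rw [mul_one, Equiv.swap_mul_self]
        · exact hw j
      · have f1 : ∀ q : Fin k → ℤ, x ++ family [p.switch] (Fin.cons [l, l] w : Fin (k + 1) → Braid)
            (Fin.cons u₀ u : Fin (k + 1) → Word) (Fin.cons 1 q) =
            x ++ [p.switch, p, p] ++ family u₀ w u q := by
          intro q
          rw [family_cons, draw_pow_one, hd]
          simp
        have f0 : ∀ q : Fin k → ℤ, x ++ family [p.switch] (Fin.cons [l, l] w : Fin (k + 1) → Braid)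
            (Fin.cons u₀ u : Fin (k + 1) → Word) (Fin.cons 0 q) =
            (x ++ [p.switch]) ++ family u₀ w u q := by
          intro q
          rw [family_cons, draw_pow_zero]
          simp
        have g1 : ∀ q : Fin k → ℤ, ext v (x ++ family [p.switch]
            (Fin.cons [l, l] w : Fin (k + 1) → Braid)
            (Fin.cons u₀ u : Fin (k + 1) → Word) (Fin.cons 1 q)) =
            ext v ((x ++ [p]) ++ family u₀ w u q) := by
          intro q
          rw [f1, ext_second hv _ _ hc]
        obtain ⟨ha, hm⟩ := h (x ++ [p]) A v hv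
        obtain ⟨ha', hm'⟩ := h (x ++ [p.switch]) A v hv
        constructor
        · have e : (1 : Fin (k + 1) → ℤ) = Fin.cons 1 1 := by
            funext j
            refine Fin.cases ?_ (fun j => ?_) j <;> rfl
          rw [e, g1, ha]
          unfold pl
          simp
        · show mix k (fun q => ext v (x ++ family [p.switch]
            (Fin.cons [l, l] w : Fin (k + 1) → Braid) (Fin.cons u₀ u : Fin (k + 1) → Word)
              (Fin.cons (((1 : Fin (k + 1) → ℕ) 0 : ℕ) : ℤ) q)) -
              ext v (x ++ family [p.switch]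
            (Fin.cons [l, l] w : Fin (k + 1) → Braid) (Fin.cons u₀ u : Fin (k + 1) → Word)
              (Fin.cons 0 q))) 1 = _
          have e1 : (((1 : Fin (k + 1) → ℕ) 0 : ℕ) : ℤ) = 1 := rfl
          simp only [e1, g1, f0]
          rw [mix_sub, hm, hm']
          show _ = malt M (fun D => ext v (x ++ (p :: D))) - malt M (fun D => ext v (x ++ (p.switch :: D)))
          congr 2 <;> (funext D; simp)

end

end Pool.Agent.H66.VG
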