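import Pool.Agent.H66.VG.Sum
import Pool.Agent.H66.VG.Mix
import Pool.Agent.H66.VG.Count

/-!
# The number of knots which are separated by additive Vassiliev invariants
-/

set_option autoImplicit false

namespace Pool.Agent.H66.VG

open Pool.Agent.H835R2 Pool.Agent.H835R2.Knot Pool.Agent.H835R2.Flat Pool.Agent.Y466.FT
open Piece

/-! ### Finiteness -/

theorem pieces_finite (X : ℕ) : {p : Piece | p.index ≤ X}.Finite := by
  have h : {p : Piece | p.index ≤ X} ⊆ ((fun i => Piece.birth i true) '' Set.Iic X ∪
      (fun i => Piece.birth i false) '' Set.Iic X) ∪ (Piece.death '' Set.Iic X ∪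
      (Piece.pos '' Set.Iic X ∪ Piece.neg '' Set.Iic X)) := by
    intro p hp
    cases p with
    | birth i b =>
      left
      cases b
      · exact Or.inr ⟨i, hp, rfl⟩
      · exact Or.inl ⟨i, hp, rfl⟩
    | death i => exact Or.inr (Or.inl ⟨i, hp, rfl⟩)
    | pos i => exact Or.inr (Or.inr (Or.inl ⟨i, hp, rfl⟩))
    | neg i => exact Or.inr (Or.inr (Or.inr ⟨i, hp, rfl⟩))
  have hf := Set.finite_Iic X
  exact (((hf.image _).union (hf.image _)).union ((hf.image _).union
    ((hf.image _).union (hf.image _)))).subset h

theorem KX_finite (X B : ℕ) : (KX X B).Finite := by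
  have : Finite {p : Piece // p.index ≤ X} := (pieces_finite X).to_subtype
  have h1 := List.finite_length_le {p : Piece // p.index ≤ X} X
  refine (h1.image (List.map Subtype.val)).subset ?_
  intro D hD
  obtain ⟨-, hl, hi, -⟩ := hD
  refine ⟨D.attachWith (fun p => p.index ≤ X) hi, ?_, ?_⟩
  · show (D.attachWith _ hi).length ≤ X
    rw [List.length_attachWith]
    exact hl
  · exact List.attachWith_map_subtype_val hi

/-! ### Marked words -/

/-- The word `D` with marks at the places of `T`. -/
def mk (D : Word) (T : Finset ℕ) : MWord := D.mapIdx fun j p => (p, decide (j ∈ T))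

theorem pl_mk (D : Word) (T : Finset ℕ) : pl (mk D T) = D := by
  unfold pl mk
  apply List.ext_getElem
  · simp
  · intro i h1 h2
    simp

theorem mset_mk (D : Word) (T : Finset ℕ) (h : T ⊆ crossingSet D) : mset (mk D T) = T := by
  ext j
  unfold mset mk
  rw [Finset.mem_filter, Finset.mem_range, List.length_mapIdx]
  constructor
  · rintro ⟨h1, h2⟩
    rw [List.getD_eq_getElem _ _ (by simpa using h1)] at h2
    simpa using h2
  · intro hj
    have h1 : j < D.length := by
      have := h hj
      unfold crossingSet at this
      rw [Finset.mem_filter, Finset.mem_range] at this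
      exact this.1
    refine ⟨h1, ?_⟩
    rw [List.getD_eq_getElem _ _ (by simpa using h1)]
    simpa using hj

theorem mk_cross (D : Word) (T : Finset ℕ) (h : T ⊆ crossingSet D) :
    ∀ x ∈ mk D T, x.2 = true → x.1.isCrossing = true := by
  intro x hx h2
  unfold mk at hx
  obtain ⟨j, hj, rfl⟩ := List.mem_iff_getElem.1 hx
  rw [List.length_mapIdx] at hj
  simp only [List.getElem_mapIdx, decide_eq_true_eq] at h2 ⊢
  have := h h2
  unfold crossingSet at this
  rw [Finset.mem_filter] at this
  obtain ⟨_, h3, h4⟩ := this
  exact h4

section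
variable {A : Type} [AddCommGroup A]

theorem malt_mk (D : Word) (T : Finset ℕ) (h : T ⊆ crossingSet D) (hD : IsKnot D)
    (v : Word → A) :
    malt (mk D T) (ext v) = ∑ S ∈ T.powerset, (-1 : ℤ) ^ S.card • v (switchAt S D) := by
  rw [malt_eq_sum, mset_mk D T h, pl_mk]
  refine Finset.sum_congr rfl fun S _ => ?_
  unfold ext
  rw [if_pos ((Same.switchAt S D).knot.2 hD)]

theorem PD_succ {n k : ℕ} {f : (Fin k → ℤ) → A} (h : PD n f) : PD (n + 1) f := by
  induction n generalizing f with
  | zero =>
    intro i q
    show f _ - f q = 0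
    rw [h, h, sub_zero]
  | succ n ih => exact fun i => ih (h i)

theorem PD_mono {n n' k : ℕ} {f : (Fin k → ℤ) → A} (hn : n ≤ n') (h : PD n f) : PD n' f := by
  induction n', hn using Nat.le_induction with
  | base => exact h
  | succ n' _ ih => exact PD_succ ih

end

theorem mix_apply {r : ℕ} {A : Type} [AddCommGroup A] (k : ℕ) (f : (Fin k → ℤ) → Fin r → A)
    (q : Fin k → ℕ) (i : Fin r) : mix k f q i = mix k (fun p => f p i) q := by
  induction k with
  | zero => rfl
  | succ k ih => exact ih _ _

/-! ### The size of the members of a family -/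

/-- A bound for the places of the pieces. -/
def mx (D : Word) : ℕ := (D.map Piece.index).sum

theorem le_mx {D : Word} {p : Piece} (h : p ∈ D) : p.index ≤ mx D :=
  List.single_le_sum (fun _ _ => Nat.zero_le _) _ (List.mem_map_of_mem h)

/-- A bound for the size of the members of a family. -/
def szC {k : ℕ} (u₀ : Word) (w : Fin k → Braid) (u : Fin k → Word) : ℕ :=
  (u₀.length + mx u₀) + ∑ i, (((w i).length + mx (draw (w i))) + ((u i).length + mx (u i)))

theorem maxima_draw (w : Braid) : maxima (draw w) = 0 := by
  unfold maxima draw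
  rw [List.countP_eq_zero]
  intro p hp
  obtain ⟨l, -, rfl⟩ := List.mem_map.1 hp
  unfold piece
  split_ifs <;> simp [isBirth]

theorem maxima_le (D : Word) : maxima D ≤ D.length := List.countP_le_length

theorem family_maxima {k : ℕ} (u₀ : Word) (w : Fin k → Braid) (u : Fin k → Word)
    (q : Fin k → ℤ) : maxima (family u₀ w u q) ≤ szC u₀ w u := by
  have e : maxima (family u₀ w u q) = maxima u₀ + ∑ i, maxima (u i) := by
    unfold family
    rw [maxima_append]
    congr 1
    unfold maxima
    rw [List.countP_flatten, List.map_ofFn, List.sum_ofFn]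
    refine Finset.sum_congr rfl fun i _ => ?_
    show (draw (pow (w i) (q i)) ++ u i).countP isBirth = _
    rw [List.countP_append]
    have := maxima_draw (pow (w i) (q i))
    unfold maxima at this
    rw [this, zero_add]
  rw [e]
  unfold szC
  refine Nat.add_le_add ?_ (Finset.sum_le_sum fun i _ => ?_)
  · have := maxima_le u₀
    omega
  · have := maxima_le (u i)
    omega

theorem family_size {k : ℕ} (u₀ : Word) (w : Fin k → Braid) (u : Fin k → Word) (q : Fin k → ℤ)
    {Y : ℕ} (hY : 1 ≤ Y) (hq : ∀ i, 0 ≤ q i ∧ q i ≤ Y) :
    (family u₀ w u q).length ≤ szC u₀ w u * Y ∧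
      ∀ p ∈ family u₀ w u q, p.index ≤ szC u₀ w u * Y := by
  have hn : ∀ i, ∃ n : ℕ, q i = n ∧ n ≤ Y := fun i => by
    obtain ⟨n, hn⟩ := Int.eq_ofNat_of_zero_le (hq i).1
    exact ⟨n, hn, by have := (hq i).2; omega⟩
  choose n hn hnY using hn
  have hdr : ∀ i, draw (pow (w i) (q i)) = (List.replicate (n i) (draw (w i))).flatten := by
    intro i
    rw [hn, draw_pow_nat]
  constructor
  · have e : (family u₀ w u q).length = u₀.length + ∑ i, (n i * (w i).length + (u i).length) := by
      unfold family
      rw [List.length_append, List.length_flatten, List.map_ofFn, List.sum_ofFn]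
      congr 1
      refine Finset.sum_congr rfl fun i _ => ?_
      show (draw (pow (w i) (q i)) ++ u i).length = _
      rw [List.length_append, hdr, List.length_flatten, List.map_replicate, List.sum_replicate]
      congr 1
      unfold draw
      rw [List.length_map, smul_eq_mul]
    rw [e]
    unfold szC
    rw [add_mul, Finset.sum_mul]
    refine Nat.add_le_add ?_ (Finset.sum_le_sum fun i _ => ?_)
    · calc u₀.length ≤ (u₀.length + mx u₀) * 1 := by omega
        _ ≤ _ := Nat.mul_le_mul_left _ hY
    · calc n i * (w i).length + (u i).length ≤ (w i).length * Y + (u i).length * Y := by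
            refine Nat.add_le_add ?_ (Nat.le_mul_of_pos_right _ hY)
            rw [mul_comm]
            exact Nat.mul_le_mul_left _ (hnY i)
        _ ≤ _ := by nlinarith [Nat.zero_le (mx (draw (w i)) * Y), Nat.zero_le (mx (u i) * Y)]
  · intro p hp
    have key : p.index ≤ szC u₀ w u := by
      unfold family at hp
      unfold szC
      rcases List.mem_append.1 hp with h | h
      · have := le_mx h
        omega
      · obtain ⟨l, hl, hpl⟩ := List.mem_flatten.1 h
        rw [List.mem_ofFn] at hl
        obtain ⟨i, rfl⟩ := hl
        have h1 : ((w i).length + mx (draw (w i))) + ((u i).length + mx (u i)) ≤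
            ∑ i, (((w i).length + mx (draw (w i))) + ((u i).length + mx (u i))) :=
          Finset.single_le_sum (f := fun i =>
            ((w i).length + mx (draw (w i))) + ((u i).length + mx (u i)))
            (fun _ _ => Nat.zero_le _) (Finset.mem_univ i)
        rcases List.mem_append.1 hpl with h2 | h2
        · rw [hdr] at h2
          obtain ⟨l, hl, hpl⟩ := List.mem_flatten.1 h2
          obtain rfl := List.eq_of_mem_replicate hl
          have := le_mx hpl
          omega
        · have := le_mx h2
          omega
    exact key.trans (Nat.le_mul_of_pos_right _ hY)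

end Pool.Agent.H66.VG
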