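import Pool.Agent.H66.VG.Intr

/-!
# An invariant of order at most `n` is an invariant of order at most `n + 1`
-/

set_option autoImplicit false

namespace Pool.Agent.H66.VG

open Pool.Agent.H835R2 Pool.Agent.H835R2.Knot Pool.Agent.H835R2.Flat Pool.Agent.Y466.FT
open Piece

variable {A : Type} [AddCommGroup A]

theorem degreeLE_succ {n : ℕ} {v : Word → A} (h : DegreeLE n v) : DegreeLE (n + 1) v := by
  intro D hD S hS hc
  rw [← malt_mk D S hS hD v]
  have hn : nm (mk D S) = n + 1 + 1 := by rw [← mset_card, mset_mk D S hS, hc]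
  have hcr := mk_cross D S hS
  obtain ⟨a, ha, ha2⟩ : ∃ a ∈ mk D S, a.2 = true := by
    by_contra hcon
    push Not at hcon
    have h0 : nm (mk D S) = 0 := List.countP_eq_zero.2 fun a ha => by
      simpa using hcon a ha
    omega
  obtain ⟨x, y, e⟩ := List.append_of_mem ha
  obtain ⟨p, b⟩ := a
  obtain rfl : b = true := ha2
  have e' : mk D S = x ++ [(p, true)] ++ y := by rw [e]; simp
  rw [e'] at hn hcr ⊢
  have hx : nm x + nm y = n + 1 := by
    unfold nm at hn ⊢
    simp at hn
    omega
  have hcr' : ∀ q : Piece, ∀ z ∈ x ++ [(q, false)] ++ y, z.2 = true → z.1.isCrossing = true := by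
    intro q z hz h2
    rw [List.append_assoc, List.mem_append, List.mem_append, List.mem_singleton] at hz
    rcases hz with hz | rfl | hz
    · exact hcr z (by simp [hz]) h2
    · exact absurd h2 (by simp)
    · exact hcr z (by simp [hz]) h2
  have hn' : ∀ q : Piece, nm (x ++ [(q, false)] ++ y) = n + 1 := by
    intro q
    unfold nm at hx ⊢
    simp
    omega
  rw [malt_mark, malt_ext h _ (hcr' _) (hn' _), malt_ext h _ (hcr' _) (hn' _), sub_zero]

theorem degreeLE_mono {n n' : ℕ} (hn : n ≤ n') {v : Word → A} (h : DegreeLE n v) :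
    DegreeLE n' v := by
  induction n', hn using Nat.le_induction with
  | base => exact h
  | succ n' _ ih => exact degreeLE_succ ih

theorem Prim_mono (K : Type) [Field K] {n n' : ℕ} (hn : n ≤ n') : Prim K n ≤ Prim K n' :=
  fun _ h => ⟨h.1, degreeLE_mono hn h.2.1, h.2.2⟩

end Pool.Agent.H66.VG
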