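import Pool.Graph.R_seed8.Y466.FT.Base

/-!
# Connected sums of sliced diagrams
-/

set_option autoImplicit false

namespace Pool.Agent.H66.VG

open Pool.Agent.H835R2 Pool.Agent.H835R2.Knot Pool.Agent.H835R2.Flat Pool.Agent.Y466.FT
open Piece

/-- The strands above the last minimum of a knot diagram are those below a maximum. -/
theorem front_two {x : Word} (hf : Knot.Fits x Front.empty) (hn : (Knot.run x Front.empty).n = 2) :
    Knot.run x Front.empty =
      (Piece.birth 0 ((Knot.run x Front.empty).dir 0)).act Front.empty := by
  have hx : Knot.run x Front.empty = (rn x (St.empty : St Empty)).front :=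
    (front_run x (St.empty : St Empty)).symm
  have hg : (rn x (St.empty : St Empty)).Good := good_rn St.good_empty hf
  rw [hx] at hn ⊢
  set s := rn x (St.empty : St Empty) with hs
  have h5 : s.n = 2 := hn
  have h1 : s.d 1 = !s.d 0 := hg.two h5
  have ge : ∀ p, 2 ≤ p → s.d p = true := fun p hp => hg.out p (by omega)
  refine Front.ext' h5 (fun p => ?_) (fun p => ?_)
  · show s.d p = if p < 0 then true else if p = 0 then s.d 0 else if p = 0 + 1 then !s.d 0 else true
    rw [if_neg (Nat.not_lt_zero p)]
    by_cases h0 : p = 0
    · rw [if_pos h0, h0]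
    · by_cases hp1 : p = 1
      · rw [if_neg h0, if_pos (by omega), hp1, h1]
      · rw [if_neg h0, if_neg (by omega), ge p (by omega)]
  · show (s.N p).1 = if p < 0 then up 0 p else if p = 0 ∨ p = 0 + 1 then
        (if s.d 0 then 0 else 0 + 1) else up 0 (p - 2)
    rw [if_neg (Nat.not_lt_zero p)]
    have hl0 := hg.lt 0 (by omega)
    have hl1 := hg.lt 1 (by omega)
    have hd0 := hg.dir 0
    have hd1 := hg.dir 1
    by_cases h0 : p = 0 ∨ p = 0 + 1
    · rw [if_pos h0]
      cases hb : s.d 0 with
      | true =>
        rw [hb] at h1
        simp only [if_true]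
        have key : ∀ q, s.d q = true → q < 2 → q = 0 := by
          intro q hq hq2
          have : q = 0 ∨ q = 1 := by omega
          rcases this with rfl | rfl
          · rfl
          · rw [h1] at hq; simp at hq
        rcases h0 with rfl | rfl
        · exact key _ hd0 (by omega)
        · exact key _ hd1 (show (s.N 1).1 < 2 by omega)
      | false =>
        rw [hb] at h1
        have key : ∀ q, s.d q = true → q < 2 → q = 1 := by
          intro q hq hq2
          have : q = 0 ∨ q = 1 := by omega
          rcases this with rfl | rfl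
          · rw [hb] at hq; simp at hq
          · rfl
        rcases h0 with rfl | rfl
        · simpa using key _ hd0 (by omega)
        · simpa using key _ hd1 (by omega)
    · rw [if_neg h0]
      have hp : 2 ≤ p := by omega
      rw [hg.exit p (ge p hp)]
      unfold up
      rw [if_neg (Nat.not_lt_zero _)]
      show p = p - 2 + 2
      omega

/-- The connected sum of two knot diagrams is a knot diagram. -/
theorem sum_knot {x y : Word} {b : Bool} (hD : IsKnot (x ++ [.death 0]))
    (hE : IsKnot (.birth 0 b :: y)) (hb : (Knot.run x Front.empty).dir 0 = b) :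
    IsKnot (x ++ y) := by
  obtain ⟨D', e, hf, hc, hn⟩ := knot_last hD
  obtain rfl : x = D' := List.append_cancel_right e
  have h2 := front_two hf hn
  rw [hb] at h2
  obtain ⟨⟨⟨-, hE1⟩, hE2⟩, hE3⟩ := hE
  refine ⟨⟨?_, ?_⟩, ?_⟩
  · rw [fits_append, h2]
    exact ⟨hf, hE1⟩
  · rw [run_append, h2]
    exact hE2
  · rw [comps_append, h2, hc, zero_add]
    have h3 : Knot.comps (.birth 0 b :: y) Front.empty =
        (if (Piece.birth 0 b).closes Front.empty then 1 else 0) +
          Knot.comps y ((Piece.birth 0 b).act Front.empty) := rfl
    rw [h3] at hE3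
    have h4 : (Piece.birth 0 b).closes Front.empty = false := rfl
    rw [h4] at hE3
    simpa using hE3

/-- A knot diagram begins with a maximum. -/
theorem knot_birth {D : Word} (hD : IsKnot D) : ∃ b y, D = .birth 0 b :: y := by
  obtain ⟨⟨h1, -⟩, h2⟩ := hD
  cases D with
  | nil => exact absurd h2 (by decide)
  | cons p y =>
    cases p with
    | birth i b =>
      have h3 : i ≤ 0 := h1.1
      have : i = 0 := by omega
      subst this
      exact ⟨b, y, rfl⟩
    | death i =>
      have h3 : i + 2 ≤ 0 := h1.1.1
      omega
    | pos i =>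
      have h3 : i + 2 ≤ 0 := h1.1
      omega
    | neg i =>
      have h3 : i + 2 ≤ 0 := h1.1
      omega

section
variable {A : Type} [AddCommGroup A]

/-- The invariant is additive: its value at the connected sum of two knots is the sum of its
values.  The diagram `x ++ y` of the connected sum arises from the diagrams `x ++ [death 0]` and
`birth 0 b :: y`, one above the other, by removing the last minimum of the upper diagram and the
first maximum of the lower one; the two strands in the middle have to have the same directions. -/
def Additive (v : Word → A) : Prop :=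
  ∀ (x y : Word) (b : Bool), IsKnot (x ++ [.death 0]) → IsKnot (.birth 0 b :: y) →
    (Knot.run x Front.empty).dir 0 = b → v (x ++ y) = v (x ++ [.death 0]) + v (.birth 0 b :: y)

/-- Is the piece a maximum? -/
def isBirth : Piece → Bool
  | .birth _ _ => true
  | _ => false

/-- The number of maxima of a diagram. -/
def maxima (D : Word) : ℕ := D.countP isBirth

omit [AddCommGroup A] in
theorem maxima_append (x y : Word) : maxima (x ++ y) = maxima x + maxima y := List.countP_append

/-- The knot diagrams with at most `X` pieces, none of them at a place after `X`, and with at most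
`B` maxima. -/
def KX (X B : ℕ) : Set Word :=
  {D | IsKnot D ∧ D.length ≤ X ∧ (∀ p ∈ D, p.index ≤ X) ∧ maxima D ≤ B}

theorem KX_mono {X Y B B' : ℕ} (h : X ≤ Y) (hB : B ≤ B') : KX X B ⊆ KX Y B' :=
  fun _ hD => ⟨hD.1, hD.2.1.trans h, fun p hp => (hD.2.2.1 p hp).trans h, hD.2.2.2.trans hB⟩

theorem circle_KX {X B : ℕ} (h : 2 ≤ X) (hB : 1 ≤ B) : circle ∈ KX X B := by
  refine ⟨by decide, h, fun p hp => ?_, hB⟩
  have : p = .birth 0 true ∨ p = .death 0 := by simpa [circle] using hp
  rcases this with rfl | rfl
  · exact Nat.zero_le _
  · exact Nat.zero_le _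

/-- **Connected sums.** -/
theorem exists_sum {D E : Word} {X Y B B' : ℕ} (hD : D ∈ KX X B) (hE : E ∈ KX Y B') :
    ∃ G ∈ KX (X + Y) (B + B'), ∀ v : Word → A, IsInvariant v → Additive v → v G = v D + v E := by
  obtain ⟨kD, lD, iD, bD⟩ := hD
  obtain ⟨kE, lE, iE, bE⟩ := hE
  obtain ⟨x, rfl, hf, hc, hn⟩ := knot_last kD
  obtain ⟨c, y, rfl⟩ := knot_birth kE
  rw [List.length_append, List.length_singleton] at lD
  rw [List.length_cons] at lE
  have ix : ∀ p ∈ x, p.index ≤ X := fun p hp => iD p (List.mem_append_left _ hp)
  have iy : ∀ p ∈ y, p.index ≤ Y := fun p hp => iE p (List.mem_cons_of_mem _ hp)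
  have bx : maxima x ≤ B := by
    rw [maxima_append] at bD
    omega
  have by' : maxima y ≤ B' := by
    have : maxima (.birth 0 c :: y) = maxima y + 1 := List.countP_cons_of_pos rfl
    omega
  set b := (Knot.run x Front.empty).dir 0 with hb
  by_cases hbc : c = b
  · subst hbc
    refine ⟨x ++ y, ⟨sum_knot kD kE rfl, ?_, fun p hp => ?_, ?_⟩,
      fun v _ ha => ha x y _ kD kE rfl⟩
    · rw [List.length_append]; omega
    · rcases List.mem_append.1 hp with h | h
      · exact (ix p h).trans (by omega)
      · exact (iy p h).trans (by omega)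
    · rw [maxima_append]
      omega
  · have hc' : c = !b := by cases c <;> cases hb' : b <;> simp_all
    have hiso := isKnot_move (x := []) (y := y) (l := [.birth 0 (!b)]) (r := [.birth 0 b, .pos 0])
      (Or.inr (Move.firstBirthPos 0 b)) (by
        refine ⟨Nat.zero_le _, ?_, trivial⟩
        show 0 + 2 ≤ 0 + 2
        omega) (by rw [hc'] at kE; exact kE)
    have kE' : IsKnot (.birth 0 b :: (.pos 0 :: y)) := hiso.1
    refine ⟨x ++ (.pos 0 :: y), ⟨sum_knot kD kE' rfl, ?_, fun p hp => ?_, ?_⟩, fun v hv ha => ?_⟩
    · rw [List.length_append, List.length_cons]; omega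
    · rcases List.mem_append.1 hp with h | h
      · exact (ix p h).trans (by omega)
      · rcases List.mem_cons.1 h with rfl | h
        · exact Nat.zero_le _
        · exact (iy p h).trans (by omega)
    · rw [maxima_append]
      have : maxima (.pos 0 :: y) = maxima y := List.countP_cons_of_neg (by simp [isBirth])
      omega
    · rw [ha x _ b kD kE' rfl]
      congr 1
      have := hv _ _ (by rw [hc'] at kE; exact kE) hiso.2
      rw [hc']
      exact this.symm

end

end Pool.Agent.H66.VG
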